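import Mathlib

/-!
# A class of functions on elementary abelian 2-groups containing the stabilizer states

For a finite vector space `X` over the field with two elements, `W a χ` is the Pauli operator on
`X → ℂ` given by the shift by `a` and the character given by `χ`. The class `SS X` consists of the
functions `ψ` such that for each Pauli operator `ψ` is an eigenvector or its expectation is `0`.
-/

set_option autoImplicit false
set_option linter.unusedSectionVars false
set_option linter.unusedSimpArgs false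

namespace Pool.Agent.Q317.SR

/-- The sign `(-1) ^ a`. -/
noncomputable def sg (a : ZMod 2) : ℂ := if a = 0 then 1 else -1

theorem zm2 (a : ZMod 2) : a = 0 ∨ a = 1 := by revert a; decide

@[simp] theorem sg_zero : sg 0 = 1 := if_pos rfl
@[simp] theorem sg_one : sg 1 = -1 := if_neg (by decide)

theorem sg_add (a b : ZMod 2) : sg (a + b) = sg a * sg b := by
  rcases zm2 a with rfl | rfl <;> rcases zm2 b with rfl | rfl
  · simp
  · simp
  · simp
  · have : (1 : ZMod 2) + 1 = 0 := by decide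
    rw [this]
    simp

theorem sg_mul_self (a : ZMod 2) : sg a * sg a = 1 := by
  rcases zm2 a with rfl | rfl <;> simp

theorem sg_conj (a : ZMod 2) : (starRingEnd ℂ) (sg a) = sg a := by
  rcases zm2 a with rfl | rfl <;> simp

theorem sg_ne (a : ZMod 2) : sg a ≠ 0 := by
  rcases zm2 a with rfl | rfl <;> simp

section

variable {X : Type} [AddCommGroup X] [Module (ZMod 2) X] [Fintype X]
variable {Y : Type} [AddCommGroup Y] [Module (ZMod 2) Y] [Fintype Y]

theorem add_self_X (x : X) : x + x = 0 := by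
  have h : (1 + 1 : ZMod 2) • x = 0 := by
    rw [show (1 + 1 : ZMod 2) = 0 from by decide, zero_smul]
  rwa [add_smul, one_smul] at h

/-- The dual space. -/
abbrev Dl (X : Type) [AddCommGroup X] [Module (ZMod 2) X] : Type := X →ₗ[ZMod 2] ZMod 2

noncomputable instance : Fintype (Dl X) := by
  classical
  exact Fintype.ofInjective (fun χ : Dl X => (χ : X → ZMod 2)) DFunLike.coe_injective

/-- The Pauli operators. -/
noncomputable def W (a : X) (χ : Dl X) (ψ : X → ℂ) : X → ℂ := fun x => sg (χ x) * ψ (x + a)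

/-- The inner product. -/
noncomputable def ip (ψ φ : X → ℂ) : ℂ := ∑ x, (starRingEnd ℂ) (ψ x) * φ x

/-- The class. -/
def SS (X : Type) [AddCommGroup X] [Module (ZMod 2) X] [Fintype X] : Set (X → ℂ) :=
  {ψ | ∀ (a : X) (χ : Dl X), (∃ l : ℂ, W a χ ψ = l • ψ) ∨ ip ψ (W a χ ψ) = 0}

theorem orth2 {η : Dl Y} (h : η ≠ 0) : ∑ y, sg (η y) = 0 := by
  obtain ⟨y0, hy0⟩ : ∃ y0, η y0 ≠ 0 := by
    by_contra hc
    push Not at hc
    exact h (LinearMap.ext hc)
  have h1 : η y0 = 1 := (zm2 _).resolve_left hy0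
  have h2 : ∑ y, sg (η (y + y0)) = ∑ y, sg (η y) :=
    Fintype.sum_equiv (Equiv.addRight y0) _ _ (fun y => rfl)
  have h3 : ∑ y, sg (η (y + y0)) = -∑ y, sg (η y) := by
    rw [← Finset.sum_neg_distrib]
    refine Finset.sum_congr rfl fun y _ => ?_
    rw [map_add, sg_add, h1, sg_one, mul_neg, mul_one]
  rw [h2] at h3
  have h4 : (2 : ℂ) * ∑ y, sg (η y) = 0 := by linear_combination h3
  simpa using h4

theorem orth1 {x : X} (h : x ≠ 0) : ∑ χ : Dl X, sg (χ x) = 0 := by
  obtain ⟨χ0, h0⟩ : ∃ χ0 : Dl X, χ0 x ≠ 0 := by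
    by_contra hc
    push Not at hc
    exact h ((Module.forall_dual_apply_eq_zero_iff (ZMod 2) x).1 hc)
  have h1 : χ0 x = 1 := (zm2 _).resolve_left h0
  have h2 : ∑ χ : Dl X, sg ((χ + χ0) x) = ∑ χ : Dl X, sg (χ x) :=
    Fintype.sum_equiv (Equiv.addRight χ0) _ _ (fun y => rfl)
  have h3 : ∑ χ : Dl X, sg ((χ + χ0) x) = -∑ χ : Dl X, sg (χ x) := by
    rw [← Finset.sum_neg_distrib]
    refine Finset.sum_congr rfl fun y _ => ?_
    rw [LinearMap.add_apply, sg_add, h1, sg_one, mul_neg, mul_one]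
  rw [h2] at h3
  have h4 : (2 : ℂ) * ∑ χ : Dl X, sg (χ x) = 0 := by linear_combination h3
  simpa using h4

theorem sum_Dl (x y : X) (c : ℂ) (h : x ≠ y) : ∑ χ : Dl X, sg (χ x) * sg (χ y) * c = 0 := by
  have hxy : x + y ≠ 0 := by
    intro h0
    apply h
    have := congrArg (fun z => z + y) h0
    simpa [add_assoc, add_self_X] using this
  have h1 := orth1 hxy
  have h2 : ∑ χ : Dl X, sg (χ x) * sg (χ y) * c = (∑ χ : Dl X, sg (χ (x + y))) * c := by
    rw [Finset.sum_mul]
    refine Finset.sum_congr rfl fun χ _ => ?_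
    rw [map_add, sg_add]
  rw [h2, h1, zero_mul]

/-- Fourier inversion. -/
theorem inversion [DecidableEq X] (h : X → ℂ) (y : X) :
    ∑ χ : Dl X, sg (χ y) * ∑ x, sg (χ x) * h x = Fintype.card (Dl X) * h y := by
  have h1 : ∑ χ : Dl X, sg (χ y) * ∑ x, sg (χ x) * h x =
      ∑ x, ∑ χ : Dl X, sg (χ y) * sg (χ x) * h x := by
    rw [Finset.sum_comm]
    refine Finset.sum_congr rfl fun χ _ => ?_
    rw [Finset.mul_sum]
    refine Finset.sum_congr rfl fun x _ => ?_
    ring
  rw [h1, Finset.sum_eq_single y]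
  · have h2 : ∀ χ ∈ (Finset.univ : Finset (Dl X)), sg (χ y) * sg (χ y) * h y = h y := by
      intro χ _
      rw [sg_mul_self, one_mul]
    rw [Finset.sum_congr rfl h2, Finset.sum_const, Finset.card_univ, nsmul_eq_mul]
  · intro x _ hx
    exact sum_Dl y x (h x) hx.symm
  · intro hy
    exact absurd (Finset.mem_univ y) hy

theorem SS_smul (c : ℂ) {ψ : X → ℂ} (h : ψ ∈ SS X) : c • ψ ∈ SS X := by
  intro a χ
  have e : W a χ (c • ψ) = c • W a χ ψ := by
    funext x
    show sg (χ x) * (c * ψ (x + a)) = c * (sg (χ x) * ψ (x + a))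
    ring
  rcases h a χ with ⟨l, hl⟩ | h0
  · left
    exact ⟨l, by rw [e, hl, smul_comm]⟩
  · right
    rw [e]
    have e2 : ip (c • ψ) (c • W a χ ψ) = (starRingEnd ℂ) c * c * ip ψ (W a χ ψ) := by
      unfold ip
      rw [Finset.mul_sum]
      refine Finset.sum_congr rfl fun x _ => ?_
      show (starRingEnd ℂ) (c * ψ x) * (c * W a χ ψ x) = _
      rw [map_mul]
      ring
    rw [e2, h0, mul_zero]

/-- Affine maps. -/
def IsAff (θ : Y → X) : Prop := ∃ (M : Y →ₗ[ZMod 2] X) (t : X), ∀ y, θ y = M y + t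

theorem SS_pullback {θ : Y → X} (hθ : IsAff θ) {ψ : X → ℂ} (h : ψ ∈ SS X) :
    (fun y => ψ (θ y)) ∈ SS Y := by
  classical
  obtain ⟨M, t, hM⟩ := hθ
  intro b η
  by_cases hA : ∃ χ : Dl X, χ.comp M = η ∧ ∃ l : ℂ, W (M b) χ ψ = l • ψ
  · left
    obtain ⟨χ, hχ, l, hl⟩ := hA
    refine ⟨sg (χ t) * l, ?_⟩
    funext y
    have h1 := congrFun hl (θ y)
    have h2 : sg (χ (θ y)) * ψ (θ y + M b) = l * ψ (θ y) := h1
    show sg (η y) * ψ (θ (y + b)) = sg (χ t) * l * ψ (θ y)
    have h3 : θ (y + b) = θ y + M b := by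
      rw [hM, hM, map_add]
      abel
    have h4 : sg (χ (θ y)) = sg (η y) * sg (χ t) := by
      rw [hM, map_add, sg_add, ← hχ]
      rfl
    rw [h3]
    rw [h4] at h2
    have h5 := sg_mul_self (χ t)
    linear_combination sg (χ t) * h2 - sg (η y) * ψ (θ y + M b) * h5
  · right
    have hB : ∀ χ : Dl X, χ.comp M = η → ip ψ (W (M b) χ ψ) = 0 := by
      intro χ hχ
      rcases h (M b) χ with hl | h0
      · exact absurd ⟨χ, hχ, hl⟩ hA
      · exact h0
    have hcard : (Fintype.card (Dl X) : ℂ) ≠ 0 := by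
      have : 0 < Fintype.card (Dl X) := Fintype.card_pos_iff.2 ⟨0⟩
      exact_mod_cast this.ne'
    have key : (Fintype.card (Dl X) : ℂ) * ip (fun y => ψ (θ y)) (W b η (fun y => ψ (θ y))) = 0 := by
      have e1 : (Fintype.card (Dl X) : ℂ) * ip (fun y => ψ (θ y)) (W b η (fun y => ψ (θ y))) =
          ∑ y, ∑ χ : Dl X, sg (η y) * (sg (χ (θ y)) * ip ψ (W (M b) χ ψ)) := by
        unfold ip
        rw [Finset.mul_sum]
        refine Finset.sum_congr rfl fun y _ => ?_
        have e2 := inversion (fun x => (starRingEnd ℂ) (ψ x) * ψ (x + M b)) (θ y)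
        have h3 : θ (y + b) = θ y + M b := by
          rw [hM, hM, map_add]
          abel
        show (Fintype.card (Dl X) : ℂ) * ((starRingEnd ℂ) (ψ (θ y)) * (sg (η y) * ψ (θ (y + b)))) = _
        rw [h3, ← Finset.mul_sum]
        have e3 : ∑ χ : Dl X, sg (χ (θ y)) * ∑ x, (starRingEnd ℂ) (ψ x) * W (M b) χ ψ x =
            ∑ χ : Dl X, sg (χ (θ y)) * ∑ x, sg (χ x) * ((starRingEnd ℂ) (ψ x) * ψ (x + M b)) := by
          refine Finset.sum_congr rfl fun χ _ => ?_
          congr 1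
          refine Finset.sum_congr rfl fun x _ => ?_
          show (starRingEnd ℂ) (ψ x) * (sg (χ x) * ψ (x + M b)) = _
          ring
        rw [e3, e2]
        ring
      rw [e1, Finset.sum_comm]
      refine Finset.sum_eq_zero fun χ _ => ?_
      by_cases hχ : χ.comp M = η
      · refine Finset.sum_eq_zero fun y _ => ?_
        rw [hB χ hχ, mul_zero, mul_zero]
      · have hne : χ.comp M + η ≠ 0 := by
          intro h0
          apply hχ
          have := congrArg (fun z => z + η) h0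
          simpa [add_assoc, add_self_X] using this
        have e4 := orth2 hne
        have e5 : ∑ y, sg (η y) * (sg (χ (θ y)) * ip ψ (W (M b) χ ψ)) =
            (∑ y, sg ((χ.comp M + η) y)) * (sg (χ t) * ip ψ (W (M b) χ ψ)) := by
          rw [Finset.sum_mul]
          refine Finset.sum_congr rfl fun y _ => ?_
          rw [hM, map_add, sg_add, LinearMap.add_apply, sg_add, LinearMap.comp_apply]
          ring
        rw [e5, e4, zero_mul]
    exact (mul_eq_zero.1 key).resolve_left hcard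

/-- Summation over a variable. -/
theorem SS_sum {ψ : X × Y → ℂ} (h : ψ ∈ SS (X × Y)) : (fun x => ∑ y, ψ (x, y)) ∈ SS X := by
  intro a χ
  let χ' : Dl (X × Y) := χ.comp (LinearMap.fst (ZMod 2) X Y)
  by_cases hA : ∃ b : Y, ∃ l : ℂ, W (a, b) χ' ψ = l • ψ
  · left
    obtain ⟨b, l, hl⟩ := hA
    refine ⟨l, ?_⟩
    funext x
    show sg (χ x) * ∑ y, ψ (x + a, y) = l * ∑ y, ψ (x, y)
    have h1 : ∑ y, ψ (x + a, y) = ∑ y, ψ (x + a, y + b) :=
      (Fintype.sum_equiv (Equiv.addRight b) _ _ (fun y => rfl)).symm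
    rw [h1, Finset.mul_sum, Finset.mul_sum]
    refine Finset.sum_congr rfl fun y _ => ?_
    exact congrFun hl (x, y)
  · right
    have hB : ∀ b : Y, ip ψ (W (a, b) χ' ψ) = 0 := by
      intro b
      rcases h (a, b) χ' with hl | h0
      · exact absurd ⟨b, hl⟩ hA
      · exact h0
    have e1 : ip (fun x => ∑ y, ψ (x, y)) (W a χ (fun x => ∑ y, ψ (x, y))) =
        ∑ b : Y, ip ψ (W (a, b) χ' ψ) := by
      unfold ip
      rw [Finset.sum_comm]
      rw [Fintype.sum_prod_type]
      refine Finset.sum_congr rfl fun x _ => ?_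
      show (starRingEnd ℂ) (∑ y, ψ (x, y)) * (sg (χ x) * ∑ y, ψ (x + a, y)) =
        ∑ y, ∑ b, (starRingEnd ℂ) (ψ (x, y)) * (sg (χ x) * ψ (x + a, y + b))
      rw [map_sum, Finset.sum_mul]
      refine Finset.sum_congr rfl fun y _ => ?_
      have h1 : ∑ b, ψ (x + a, y + b) = ∑ b, ψ (x + a, b) :=
        Fintype.sum_equiv (Equiv.addLeft y) _ _ (fun y => rfl)
      rw [← h1, Finset.mul_sum, Finset.mul_sum]
    rw [e1]
    exact Finset.sum_eq_zero fun b _ => hB b

/-- Quadratic functions. -/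
def IsQuad (Q : X → ZMod 2) : Prop :=
  ∀ a, ∃ (χ : Dl X) (c : ZMod 2), ∀ x, Q (x + a) = Q x + χ x + c

theorem SS_phase {Q : X → ZMod 2} (hQ : IsQuad Q) {ψ : X → ℂ} (h : ψ ∈ SS X) :
    (fun x => sg (Q x) * ψ x) ∈ SS X := by
  intro a χ
  obtain ⟨χ', c, hc⟩ := hQ a
  have e1 : ∀ x, W a χ (fun x => sg (Q x) * ψ x) x = sg c * (sg (Q x) * W a (χ + χ') ψ x) := by
    intro x
    show sg (χ x) * (sg (Q (x + a)) * ψ (x + a)) = sg c * (sg (Q x) * (sg ((χ + χ') x) * ψ (x + a)))
    rw [hc, sg_add, sg_add, LinearMap.add_apply, sg_add]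
    ring
  rcases h a (χ + χ') with ⟨l, hl⟩ | h0
  · left
    refine ⟨sg c * l, ?_⟩
    funext x
    rw [e1, hl]
    show sg c * (sg (Q x) * (l * ψ x)) = sg c * l * (sg (Q x) * ψ x)
    ring
  · right
    have e2 : ip (fun x => sg (Q x) * ψ x) (W a χ (fun x => sg (Q x) * ψ x)) =
        sg c * ip ψ (W a (χ + χ') ψ) := by
      unfold ip
      rw [Finset.mul_sum]
      refine Finset.sum_congr rfl fun x _ => ?_
      rw [e1, map_mul, sg_conj]
      linear_combination ((starRingEnd ℂ) (ψ x) * sg c * W a (χ + χ') ψ x) * sg_mul_self (Q x)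
    rw [e2, h0, mul_zero]

end

end Pool.Agent.Q317.SR
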