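import Pool.Agent.Q317.SR.Class

/-!
# Counting
-/

set_option autoImplicit false
set_option linter.unusedSectionVars false
set_option linter.unusedSimpArgs false

namespace Pool.Agent.Q317.SR

section

variable {X : Type} [AddCommGroup X] [Module (ZMod 2) X] [Fintype X]

theorem W_add (a b : X) (χ η : Dl X) (ψ : X → ℂ) :
    W (a + b) (χ + η) ψ = sg (η a) • W a χ (W b η ψ) := by
  funext x
  show sg ((χ + η) x) * ψ (x + (a + b)) = sg (η a) * (sg (χ x) * (sg (η (x + a)) * ψ (x + a + b)))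
  rw [LinearMap.add_apply, sg_add, map_add, sg_add, add_assoc]
  linear_combination (-sg (χ x) * sg (η x) * ψ (x + (a + b))) * sg_mul_self (η a)

theorem W_smul (a : X) (χ : Dl X) (c : ℂ) (ψ : X → ℂ) : W a χ (c • ψ) = c • W a χ ψ := by
  funext x
  show sg (χ x) * (c * ψ (x + a)) = c * (sg (χ x) * ψ (x + a))
  ring

theorem W_zero (ψ : X → ℂ) : W 0 0 ψ = ψ := by
  funext x
  show sg ((0 : Dl X) x) * ψ (x + 0) = ψ x
  rw [add_zero, LinearMap.zero_apply, sg_zero, one_mul]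

/-- The Pauli operators for which both vectors are eigenvectors with the same eigenvalue. -/
def Gm (ψ φ : X → ℂ) : Submodule (ZMod 2) (X × Dl X) where
  carrier := {p | ∃ l : ℂ, W p.1 p.2 ψ = l • ψ ∧ W p.1 p.2 φ = l • φ}
  zero_mem' := ⟨1, by
    rw [one_smul]
    exact W_zero ψ, by
    rw [one_smul]
    exact W_zero φ⟩
  add_mem' := by
    rintro ⟨a, χ⟩ ⟨b, η⟩ ⟨l, h1, h2⟩ ⟨m, h3, h4⟩
    refine ⟨sg (η a) * (m * l), ?_, ?_⟩
    · show W (a + b) (χ + η) ψ = _
      rw [W_add, h3, W_smul, h1, smul_smul, smul_smul, mul_assoc]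
    · show W (a + b) (χ + η) φ = _
      rw [W_add, h4, W_smul, h2, smul_smul, smul_smul, mul_assoc]
  smul_mem' := by
    rintro c p hp
    rcases zm2 c with rfl | rfl
    · rw [zero_smul]
      refine ⟨1, ?_, ?_⟩
      · rw [one_smul]
        exact W_zero ψ
      · rw [one_smul]
        exact W_zero φ
    · rw [one_smul]
      exact hp

theorem mem_Gm {ψ φ : X → ℂ} {p : X × Dl X} :
    p ∈ Gm ψ φ ↔ ∃ l : ℂ, W p.1 p.2 ψ = l • ψ ∧ W p.1 p.2 φ = l • φ := Iff.rfl

theorem ip_smul (ψ φ : X → ℂ) (c : ℂ) : ip ψ (c • φ) = c * ip ψ φ := by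
  unfold ip
  rw [Finset.mul_sum]
  refine Finset.sum_congr rfl fun x _ => ?_
  show (starRingEnd ℂ) (ψ x) * (c * φ x) = _
  ring

theorem ip_self_ne {ψ : X → ℂ} (h : ψ ≠ 0) : ip ψ ψ ≠ 0 := by
  intro h0
  apply h
  have h1 : ip ψ ψ = ((∑ x, Complex.normSq (ψ x) : ℝ) : ℂ) := by
    unfold ip
    push_cast
    refine Finset.sum_congr rfl fun x _ => ?_
    rw [mul_comm, Complex.mul_conj]
  rw [h1] at h0
  have h2 : ∑ x, Complex.normSq (ψ x) = 0 := by exact_mod_cast h0
  rw [Finset.sum_eq_zero_iff_of_nonneg (fun x _ => Complex.normSq_nonneg _)] at h2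
  funext x
  exact Complex.normSq_eq_zero.1 (h2 x (Finset.mem_univ x))

/-- A nonzero element of the class is determined up to scalars by its eigenvalues. -/
theorem determined {ψ φ : X → ℂ} (hψ : ψ ∈ SS X) (hφ : φ ∈ SS X) (h0 : ψ ≠ 0) (h0' : φ ≠ 0)
    (h1 : Gm ψ ψ ≤ Gm ψ φ) (h2 : Gm φ φ ≤ Gm ψ φ) : ∃ c : ℂ, φ = c • ψ := by
  classical
  have key : ∀ (a : X) (χ : Dl X),
      ip ψ (W a χ ψ) * ip φ φ = ip φ (W a χ φ) * ip ψ ψ := by
    intro a χ
    by_cases h : (a, χ) ∈ Gm ψ φ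
    · obtain ⟨l, h3, h4⟩ := h
      have h3' : W a χ ψ = l • ψ := h3
      have h4' : W a χ φ = l • φ := h4
      rw [h3', h4', ip_smul, ip_smul]
      ring
    · have e1 : ip ψ (W a χ ψ) = 0 := by
        rcases hψ a χ with ⟨l, hl⟩ | h5
        · exact absurd (h1 ⟨l, hl, hl⟩) h
        · exact h5
      have e2 : ip φ (W a χ φ) = 0 := by
        rcases hφ a χ with ⟨l, hl⟩ | h5
        · exact absurd (h2 ⟨l, hl, hl⟩) h
        · exact h5
      rw [e1, e2, zero_mul, zero_mul]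
  have hcard : (Fintype.card (Dl X) : ℂ) ≠ 0 := by
    have : 0 < Fintype.card (Dl X) := Fintype.card_pos_iff.2 ⟨0⟩
    exact_mod_cast this.ne'
  have key2 : ∀ x a : X, (starRingEnd ℂ) (ψ x) * ψ (x + a) * ip φ φ =
      (starRingEnd ℂ) (φ x) * φ (x + a) * ip ψ ψ := by
    intro x a
    have e1 := inversion (fun x => (starRingEnd ℂ) (ψ x) * ψ (x + a) * ip φ φ -
      (starRingEnd ℂ) (φ x) * φ (x + a) * ip ψ ψ) x
    have e2 : ∀ χ : Dl X, ∑ y, sg (χ y) * ((starRingEnd ℂ) (ψ y) * ψ (y + a) * ip φ φ -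
      (starRingEnd ℂ) (φ y) * φ (y + a) * ip ψ ψ) = 0 := by
      intro χ
      have e3 : ∑ y, sg (χ y) * ((starRingEnd ℂ) (ψ y) * ψ (y + a) * ip φ φ -
        (starRingEnd ℂ) (φ y) * φ (y + a) * ip ψ ψ) =
          ip ψ (W a χ ψ) * ip φ φ - ip φ (W a χ φ) * ip ψ ψ := by
        have e4 : ip ψ (W a χ ψ) * ip φ φ =
            ∑ y, sg (χ y) * ((starRingEnd ℂ) (ψ y) * ψ (y + a) * ip φ φ) := by
          conv_lhs => rw [ip]
          rw [Finset.sum_mul]
          refine Finset.sum_congr rfl fun y _ => ?_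
          show (starRingEnd ℂ) (ψ y) * (sg (χ y) * ψ (y + a)) * ip φ φ = _
          ring
        have e5 : ip φ (W a χ φ) * ip ψ ψ =
            ∑ y, sg (χ y) * ((starRingEnd ℂ) (φ y) * φ (y + a) * ip ψ ψ) := by
          conv_lhs => rw [ip]
          rw [Finset.sum_mul]
          refine Finset.sum_congr rfl fun y _ => ?_
          show (starRingEnd ℂ) (φ y) * (sg (χ y) * φ (y + a)) * ip ψ ψ = _
          ring
        rw [e4, e5, ← Finset.sum_sub_distrib]
        refine Finset.sum_congr rfl fun y _ => ?_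
        ring
      rw [e3, key, sub_self]
    have e6 : ∑ χ : Dl X, sg (χ x) * ∑ y, sg (χ y) * ((starRingEnd ℂ) (ψ y) * ψ (y + a) * ip φ φ -
      (starRingEnd ℂ) (φ y) * φ (y + a) * ip ψ ψ) = 0 :=
      Finset.sum_eq_zero fun χ _ => by rw [e2, mul_zero]
    rw [e6] at e1
    have e7 := (mul_eq_zero.1 e1.symm).resolve_left hcard
    exact sub_eq_zero.1 e7
  obtain ⟨x0, hx0⟩ : ∃ x0, ψ x0 ≠ 0 := by
    by_contra hc
    push Not at hc
    exact h0 (funext hc)
  have hN := ip_self_ne h0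
  have hN' := ip_self_ne h0'
  have hφ0 : φ x0 ≠ 0 := by
    intro hz
    have e := key2 x0 0
    rw [add_zero, hz, mul_zero, zero_mul] at e
    have hc : (starRingEnd ℂ) (ψ x0) ≠ 0 := (map_ne_zero _).2 hx0
    exact mul_ne_zero (mul_ne_zero hc hx0) hN' e
  have hc : (starRingEnd ℂ) (φ x0) ≠ 0 := (map_ne_zero _).2 hφ0
  refine ⟨(starRingEnd ℂ) (ψ x0) * ip φ φ / ((starRingEnd ℂ) (φ x0) * ip ψ ψ), ?_⟩
  funext y
  have e := key2 x0 (x0 + y)
  have e8 : x0 + (x0 + y) = y := by rw [← add_assoc, add_self_X, zero_add]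
  rw [e8] at e
  show φ y = (starRingEnd ℂ) (ψ x0) * ip φ φ / ((starRingEnd ℂ) (φ x0) * ip ψ ψ) * ψ y
  rw [div_mul_eq_mul_div, eq_div_iff (mul_ne_zero hc hN)]
  linear_combination -e

theorem eigenvalue {ψ : X → ℂ} (h0 : ψ ≠ 0) {a : X} {χ : Dl X} {l : ℂ} (h : W a χ ψ = l • ψ) :
    ∃ k : Fin 4, l = Complex.I ^ (k : ℕ) := by
  have h1 := W_add a a χ χ ψ
  rw [add_self_X, show χ + χ = 0 from add_self_X χ, W_zero, h, W_smul, h, smul_smul, smul_smul] at h1
  obtain ⟨x0, hx0⟩ : ∃ x0, ψ x0 ≠ 0 := by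
    by_contra hc
    push Not at hc
    exact h0 (funext hc)
  have h2 := congrFun h1 x0
  have h3 : ψ x0 = (sg (χ a) * l * l) * ψ x0 := h2
  have h4 : sg (χ a) * (l * l) = 1 := by
    have h5 : ψ x0 * (1 - sg (χ a) * (l * l)) = 0 := by linear_combination h3
    have h6 := (mul_eq_zero.1 h5).resolve_left hx0
    linear_combination -h6
  rcases zm2 (χ a) with hz | hz
  · rw [hz, sg_zero, one_mul] at h4
    have h5 : (l - 1) * (l + 1) = 0 := by linear_combination h4
    rcases mul_eq_zero.1 h5 with h6 | h6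
    · exact ⟨0, by simp; linear_combination h6⟩
    · exact ⟨2, by simp; linear_combination h6⟩
  · rw [hz, sg_one] at h4
    have h5 : (l - Complex.I) * (l + Complex.I) = 0 := by
      linear_combination -h4 - Complex.I_mul_I
    rcases mul_eq_zero.1 h5 with h6 | h6
    · exact ⟨1, by simp; linear_combination h6⟩
    · refine ⟨3, ?_⟩
      show l = Complex.I ^ 3
      rw [Complex.I_pow_three]
      linear_combination h6

/-- The type of codes. -/
abbrev Code (X : Type) [AddCommGroup X] [Module (ZMod 2) X] (n : ℕ) : Type :=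
  Fin n → (X × Dl X) × Fin 4

/-- The code describes the Pauli operators of which the vector is an eigenvector. -/
def IsCode {n : ℕ} (ψ : X → ℂ) (c : Code X n) : Prop :=
  Submodule.span (ZMod 2) (Set.range fun i => (c i).1) = Gm ψ ψ ∧
    ∀ i, W (c i).1.1 (c i).1.2 ψ = (Complex.I ^ ((c i).2 : ℕ)) • ψ

theorem exists_code {n : ℕ} (hn : Module.finrank (ZMod 2) (X × Dl X) ≤ n) {ψ : X → ℂ}
    (h0 : ψ ≠ 0) : ∃ c : Code X n, IsCode ψ c := by
  classical
  have hfin : Module.finrank (ZMod 2) (Gm ψ ψ) ≤ n := (Submodule.finrank_le _).trans hn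
  let B := Module.finBasis (ZMod 2) (Gm ψ ψ)
  let g : Fin n → Gm ψ ψ := fun i =>
    if h : (i : ℕ) < Module.finrank (ZMod 2) (Gm ψ ψ) then B ⟨i, h⟩ else 0
  have hg : Submodule.span (ZMod 2) (Set.range g) = ⊤ := by
    rw [eq_top_iff, ← B.span_eq, Submodule.span_le]
    rintro _ ⟨j, rfl⟩
    apply Submodule.subset_span
    refine ⟨⟨j, lt_of_lt_of_le j.2 hfin⟩, ?_⟩
    show (if h : (j : ℕ) < Module.finrank (ZMod 2) (Gm ψ ψ) then B ⟨j, h⟩ else 0) = B j
    rw [dif_pos j.2]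
  have hl : ∀ i : Fin n, ∃ k : Fin 4, W (g i).1.1 (g i).1.2 ψ = (Complex.I ^ (k : ℕ)) • ψ := by
    intro i
    obtain ⟨l, h1, _⟩ := (g i).2
    obtain ⟨k, hk⟩ := eigenvalue h0 h1
    exact ⟨k, by rw [← hk]; exact h1⟩
  choose k hk using hl
  refine ⟨fun i => ((g i).1, k i), ?_, hk⟩
  have e1 : (Set.range fun i => (g i).1) = (Gm ψ ψ).subtype '' (Set.range g) := by
    rw [← Set.range_comp]
    rfl
  show Submodule.span (ZMod 2) (Set.range fun i => (g i).1) = Gm ψ ψ
  rw [e1, ← Submodule.map_span, hg, Submodule.map_top, Submodule.range_subtype]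

theorem code_unique {n : ℕ} {ψ φ : X → ℂ} (hψ : ψ ∈ SS X) (hφ : φ ∈ SS X) (h0 : ψ ≠ 0)
    (h0' : φ ≠ 0) {c : Code X n} (h1 : IsCode ψ c) (h2 : IsCode φ c) : ∃ a : ℂ, φ = a • ψ := by
  have h3 : Submodule.span (ZMod 2) (Set.range fun i => (c i).1) ≤ Gm ψ φ := by
    rw [Submodule.span_le]
    rintro _ ⟨i, rfl⟩
    exact ⟨_, h1.2 i, h2.2 i⟩
  refine determined hψ hφ h0 h0' ?_ ?_
  · rw [← h1.1]; exact h3
  · rw [← h2.1]; exact h3

theorem exists_rep (n : ℕ) (hn : Module.finrank (ZMod 2) (X × Dl X) ≤ n) :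
    ∃ R : Code X n → (X → ℂ), ∀ ψ ∈ SS X, ∃ (c : Code X n) (a : ℂ), ψ = a • R c := by
  classical
  refine ⟨fun c => if h : ∃ ψ ∈ SS X, ψ ≠ 0 ∧ IsCode ψ c then h.choose else 0, ?_⟩
  intro ψ hψ
  by_cases h0 : ψ = 0
  · exact ⟨fun _ => 0, 0, by rw [h0, zero_smul]⟩
  · obtain ⟨c, hc⟩ := exists_code hn h0
    have hex : ∃ φ ∈ SS X, φ ≠ 0 ∧ IsCode φ c := ⟨ψ, hψ, h0, hc⟩
    obtain ⟨h1, h2, h3⟩ := hex.choose_spec
    obtain ⟨a, ha⟩ := code_unique h1 hψ h2 h0 h3 hc
    refine ⟨c, a, ?_⟩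
    show ψ = a • (if h : ∃ ψ ∈ SS X, ψ ≠ 0 ∧ IsCode ψ c then h.choose else 0)
    rw [dif_pos hex]
    exact ha

/-- A space of dimension at most `r` has at most `2 ^ r` vectors with all coordinates `±1`. -/
theorem signs_le [DecidableEq X] (V : Submodule ℂ (X → ℂ)) (r : ℕ) (hr : Module.finrank ℂ V ≤ r) :
    Nat.card {f : X → ZMod 2 // (fun x => sg (f x)) ∈ V} ≤ 2 ^ r := by
  classical
  let ev : X → Module.Dual ℂ V := fun x => (LinearMap.proj x).comp V.subtype
  obtain ⟨b, hb1, hb2, hb3⟩ := exists_linearIndependent ℂ (Set.range ev)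
  have hbf : b.Finite := (Set.finite_range ev).subset hb1
  have : Fintype b := hbf.fintype
  have hcard : Fintype.card b ≤ r := by
    refine le_trans ?_ hr
    rw [← Subspace.dual_finrank_eq]
    exact hb3.fintype_card_le_finrank
  have hch : ∀ e : b, ∃ x : X, ev x = e.1 := fun e => hb1 e.2
  choose p hp using hch
  have hvan : ∀ w : V, (∀ e : b, w.1 (p e) = 0) → w.1 = 0 := by
    intro w hw
    funext x
    have h1 : ev x ∈ Submodule.span ℂ b := by
      rw [hb2]
      exact Submodule.subset_span ⟨x, rfl⟩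
    have h2 : ∀ e ∈ Submodule.span ℂ b, e w = 0 := by
      intro e he
      induction he using Submodule.span_induction with
      | mem e he =>
        have h3 := hw ⟨e, he⟩
        have h4 : ev (p ⟨e, he⟩) w = 0 := h3
        rw [hp] at h4
        exact h4
      | zero => rfl
      | add e e' _ _ h3 h4 => rw [LinearMap.add_apply, h3, h4, add_zero]
      | smul a e _ h3 => rw [LinearMap.smul_apply, h3, smul_zero]
    exact h2 _ h1
  have hsg : ∀ a b : ZMod 2, sg a = sg b → a = b := by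
    intro a b h
    rcases zm2 a with rfl | rfl <;> rcases zm2 b with rfl | rfl
    · rfl
    · simp at h; norm_num at h
    · simp at h; norm_num at h
    · rfl
  let F : {f : X → ZMod 2 // (fun x => sg (f x)) ∈ V} → (b → ZMod 2) := fun f e => f.1 (p e)
  have hF : Function.Injective F := by
    intro f g hfg
    apply Subtype.ext
    have h1 := hvan (⟨_, f.2⟩ - ⟨_, g.2⟩) (by
      intro e
      show sg (f.1 (p e)) - sg (g.1 (p e)) = 0
      have := congrFun hfg e
      have h2 : f.1 (p e) = g.1 (p e) := this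
      rw [h2, sub_self])
    funext x
    have h3 := congrFun h1 x
    have h4 : sg (f.1 x) - sg (g.1 x) = 0 := h3
    exact hsg _ _ (sub_eq_zero.1 h4)
  have h5 := Nat.card_le_card_of_injective F hF
  refine h5.trans ?_
  rw [Nat.card_fun, Nat.card_eq_fintype_card (α := ZMod 2), ZMod.card,
    Nat.card_eq_fintype_card]
  exact Nat.pow_le_pow_right (by norm_num) hcard

/-- **Counting.** -/
theorem count (n r : ℕ) (hn : Module.finrank (ZMod 2) (X × Dl X) ≤ n)
    (hall : ∀ f : X → ZMod 2, ∃ T : Fin r → (X → ℂ), (∀ i, T i ∈ SS X) ∧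
      (fun x => sg (f x)) ∈ Submodule.span ℂ (Set.range T)) :
    2 ^ Fintype.card X ≤ (Nat.card (Code X n)) ^ r * 2 ^ r := by
  classical
  obtain ⟨R, hR⟩ := exists_rep (X := X) n hn
  let V : (Fin r → Code X n) → Submodule ℂ (X → ℂ) := fun c =>
    Submodule.span ℂ (Set.range fun i => R (c i))
  have hV : ∀ c, Module.finrank ℂ (V c) ≤ r := by
    intro c
    have := finrank_range_le_card (R := ℂ) (fun i => R (c i))
    rw [Fintype.card_fin] at this
    exact this
  have hex : ∀ f : X → ZMod 2, ∃ c : Fin r → Code X n, (fun x => sg (f x)) ∈ V c := by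
    intro f
    obtain ⟨T, hT, hf⟩ := hall f
    have h1 : ∀ i, ∃ (c : Code X n) (a : ℂ), T i = a • R c := fun i => hR _ (hT i)
    choose c a hca using h1
    refine ⟨c, ?_⟩
    have h2 : Submodule.span ℂ (Set.range T) ≤ V c := by
      rw [Submodule.span_le]
      rintro _ ⟨i, rfl⟩
      rw [hca i]
      exact (V c).smul_mem _ (Submodule.subset_span ⟨i, rfl⟩)
    exact h2 hf
  choose c hc using hex
  let G : (X → ZMod 2) → Σ c : Fin r → Code X n, {f : X → ZMod 2 // (fun x => sg (f x)) ∈ V c} :=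
    fun f => ⟨c f, f, hc f⟩
  have hG : Function.Injective G := by
    intro f g h
    have h1 : (G f).2.1 = (G g).2.1 := by rw [h]
    exact h1
  have hfin : Finite (Σ c : Fin r → Code X n, {f : X → ZMod 2 // (fun x => sg (f x)) ∈ V c}) :=
    inferInstance
  have h1 := Nat.card_le_card_of_injective G hG
  rw [Nat.card_sigma] at h1
  have h2 : Nat.card (X → ZMod 2) = 2 ^ Fintype.card X := by
    rw [Nat.card_fun, Nat.card_eq_fintype_card (α := ZMod 2), ZMod.card,
      Nat.card_eq_fintype_card]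
  rw [h2] at h1
  refine h1.trans ?_
  refine (Finset.sum_le_sum fun c _ => signs_le (V c) r (hV c)).trans ?_
  rw [Finset.sum_const, Finset.card_univ, ← Nat.card_eq_fintype_card, Nat.card_fun, smul_eq_mul,
    Nat.card_eq_fintype_card (α := Fin r), Fintype.card_fin]

end

end Pool.Agent.Q317.SR
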