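import Mathlib

/-!
# Stabilizer states and the stabilizer rank
-/

set_option autoImplicit false

namespace Pool.Agent.Q317.SR

/-- The strings of `d` bits, which index the standard basis of the tensor power `(ℂ ^ 2) ^ ⊗ d`. -/
abbrev Bits (d : ℕ) : Type := Fin d → Fin 2

/-- The Pauli matrix `X`. -/
def pX : Matrix (Fin 2) (Fin 2) ℂ := !![0, 1; 1, 0]

/-- The Pauli matrix `Y`. -/
def pY : Matrix (Fin 2) (Fin 2) ℂ := !![0, -Complex.I; Complex.I, 0]

/-- The Pauli matrix `Z`. -/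
def pZ : Matrix (Fin 2) (Fin 2) ℂ := !![1, 0; 0, -1]

/-- The group `P₁` generated by `X`, `Y`, `Z` (the matrices `X`, `Y`, `Z` are involutions, so their
products form a group). -/
def P1 : Submonoid (Matrix (Fin 2) (Fin 2) ℂ) := Submonoid.closure {pX, pY, pZ}

/-- The tensor product of `d` matrices. -/
def tensor {d : ℕ} (p : Fin d → Matrix (Fin 2) (Fin 2) ℂ) : Matrix (Bits d) (Bits d) ℂ :=
  Matrix.of fun x y => ∏ j, p j (x j) (y j)

/-- The elements of the group `P_d`. -/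
def IsPauli {d : ℕ} (M : Matrix (Bits d) (Bits d) ℂ) : Prop :=
  ∃ p : Fin d → Matrix (Fin 2) (Fin 2) ℂ, (∀ j, p j ∈ P1) ∧ M = tensor p

/-- The Clifford group: the unitary matrices that normalize `P_d`. -/
def IsClifford {d : ℕ} (U : Matrix (Bits d) (Bits d) ℂ) : Prop :=
  U ∈ Matrix.unitaryGroup (Bits d) ℂ ∧ ∀ M, IsPauli M ↔ IsPauli (U * M * star U)

/-- The vector `e₀ ^ ⊗ d`. -/
def e0 (d : ℕ) : Bits d → ℂ := fun x => if x = 0 then 1 else 0

/-- The stabilizer states. -/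
def IsStab {d : ℕ} (ψ : Bits d → ℂ) : Prop := ∃ U, IsClifford U ∧ ψ = U.mulVec (e0 d)

/-- The stabilizer rank: the least number of stabilizer states with `T` as a linear combination. -/
noncomputable def stabR {d : ℕ} (T : Bits d → ℂ) : ℕ :=
  sInf {r | ∃ (a : Fin r → ℂ) (S : Fin r → (Bits d → ℂ)), (∀ i, IsStab (S i)) ∧
    T = ∑ i, a i • S i}

/-- The tensor power of `v = e₀ + √2 e₁`. -/
noncomputable def vpow (d : ℕ) : Bits d → ℂ :=
  fun x => ∏ j, if x j = 0 then (1 : ℂ) else (Real.sqrt 2 : ℝ)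

end Pool.Agent.Q317.SR
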