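import Pool.Agent.Q317.SR.Path

/-!
# All sign functions from a bounded number of copies of `v`
-/

set_option autoImplicit false
set_option linter.unusedSectionVars false
set_option linter.unusedSimpArgs false

namespace Pool.Agent.Q317.SR

/-- `√2` as a complex number. -/
noncomputable def s2 : ℂ := ((Real.sqrt 2 : ℝ) : ℂ)

theorem s2_sq : s2 ^ 2 = 2 := by
  unfold s2
  rw [← Complex.ofReal_pow, Real.sq_sqrt (by norm_num)]
  norm_num

theorem s2_ne : s2 ≠ 0 := by
  intro h
  have := s2_sq
  rw [h] at this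
  norm_num at this

theorem prod_lf0 (a b c : ZMod 2) :
    ∏ j, vv (lf j a b c 0) = s2 ^ (15 - 4 * (a * b * c).val) := by
  rw [← lf_sum0, ← Finset.prod_pow_eq_pow_sum]
  exact Finset.prod_congr rfl fun j _ => vv_eq _

theorem prod_lf1 (a b c : ZMod 2) :
    ∏ j, vv (lf j a b c 1) = s2 ^ (11 + 4 * (a * b * c).val) := by
  rw [← lf_sum1, ← Finset.prod_pow_eq_pow_sum]
  exact Finset.prod_congr rfl fun j _ => vv_eq _

theorem gadget (a b c : ZMod 2) :
    ∑ w : ZMod 2, sg w * ∏ j, vv (lf j a b c w) = (3 * s2 ^ 11) * sg (a * b * c) := by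
  have h : ∑ w : ZMod 2, sg w * ∏ j, vv (lf j a b c w) =
      sg 0 * ∏ j, vv (lf j a b c 0) + sg 1 * ∏ j, vv (lf j a b c 1) := Fin.sum_univ_two _
  have h2 := s2_sq
  rw [h, prod_lf0, prod_lf1, sg_zero, sg_one]
  rcases zm2 (a * b * c) with h0 | h0
  · rw [h0, sg_zero]
    show 1 * s2 ^ 15 + -1 * s2 ^ 11 = _
    linear_combination (s2 ^ 11 * (s2 ^ 2 + 2)) * h2
  · rw [h0, sg_one]
    show 1 * s2 ^ 11 + -1 * s2 ^ 15 = _
    linear_combination (-s2 ^ 11 * (s2 ^ 2 + 2)) * h2

section

variable {X : Type} [AddCommGroup X] [Module (ZMod 2) X]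

theorem ccz {a b c : X → ZMod 2} (ha : IsAff a) (hb : IsAff b) (hc : IsAff c) :
    PP 26 (fun x => (3 * s2 ^ 11) * sg (a x * b x * c x)) := by
  have h1 : PP (Fintype.card (Fin 26)) (fun p : X × ZMod 2 => sg p.2 *
      ∏ j, vv (lf j (a p.1) (b p.1) (c p.1) p.2)) := by
    apply PP.prim (IsQuad.of_aff IsAff.snd)
    intro j
    exact (((((ha.comp IsAff.fst).cmul _).add ((hb.comp IsAff.fst).cmul _)).add
      ((hc.comp IsAff.fst).cmul _)).add (IsAff.snd.cmul _)).add (IsAff.const _)
  have h2 := h1.sum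
  rw [Fintype.card_fin] at h2
  have h3 : (fun x => (3 * s2 ^ 11) * sg (a x * b x * c x)) = fun x => ∑ z, sg z *
      ∏ j, vv (lf j (a x) (b x) (c x) z) := by
    funext x
    exact (gadget _ _ _).symm
  rw [h3]
  exact h2

theorem and_gate {p q r : X → ZMod 2} (hp : IsAff p) (hq : IsAff q) (hr : IsAff r) :
    PP 26 (fun x => (6 * s2 ^ 11) * (if r x = p x * q x then 1 else 0)) := by
  have h1 : PP 0 (fun t : X × ZMod 2 => sg (t.2 * r t.1)) :=
    PP.phase (IsQuad.mul IsAff.snd (hr.comp IsAff.fst))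
  have h2 : PP 26 (fun t : X × ZMod 2 => (3 * s2 ^ 11) * sg (t.2 * p t.1 * q t.1)) :=
    ccz IsAff.snd (hp.comp IsAff.fst) (hq.comp IsAff.fst)
  have h3 := (h1.mul h2).sum
  rw [zero_add] at h3
  have h4 : (fun x => (6 * s2 ^ 11) * (if r x = p x * q x then (1 : ℂ) else 0)) =
      fun x => ∑ z, sg (z * r x) * ((3 * s2 ^ 11) * sg (z * p x * q x)) := by
    funext x
    have e1 : ∑ z : ZMod 2, sg (z * r x) * ((3 * s2 ^ 11) * sg (z * p x * q x)) =
        sg (0 * r x) * ((3 * s2 ^ 11) * sg (0 * p x * q x)) +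
          sg (1 * r x) * ((3 * s2 ^ 11) * sg (1 * p x * q x)) := Fin.sum_univ_two _
    rw [e1]
    simp only [zero_mul, one_mul, sg_zero]
    by_cases h : r x = p x * q x
    · rw [if_pos h, h]
      linear_combination (-(3 * s2 ^ 11)) * sg_mul_self (p x * q x)
    · rw [if_neg h]
      have h5 : sg (r x) * sg (p x * q x) = -1 := by
        rw [← sg_add]
        have h6 : r x + p x * q x ≠ 0 := by
          intro h0
          apply h
          have := congrArg (fun z => z + p x * q x) h0
          simpa [add_assoc, add_self_X] using this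
        rw [(zm2 _).resolve_left h6, sg_one]
      linear_combination (-(3 * s2 ^ 11)) * h5
  rw [h4]
  exact h3

theorem PP.one : PP 0 (fun _ : X => (1 : ℂ)) := by
  have h := PP.phase (X := X) IsQuad.zero
  simpa using h

theorem PP.prod {ι : Type} (s : Finset ι) {d : ℕ} {g : ι → X → ℂ} (h : ∀ i, PP d (g i)) :
    PP (s.card * d) (fun x => ∏ i ∈ s, g i x) := by
  classical
  induction s using Finset.induction_on with
  | empty => simpa using PP.one (X := X)
  | insert a s ha ih =>
    have e : (fun x => ∏ i ∈ insert a s, g i x) = fun x => g a x * ∏ i ∈ s, g i x := by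
      funext x
      rw [Finset.prod_insert ha]
    rw [e, Finset.card_insert_of_notMem ha, add_mul, one_mul, add_comm]
    exact (h a).mul ih

/-- The monomials. -/
def mon {k : ℕ} (y : Fin k → ZMod 2) (A : Finset (Fin k)) : ZMod 2 := ∏ i ∈ A, y i

/-- The first factor of the gate of a monomial. -/
def pf {k : ℕ} (w : Finset (Fin k) → ZMod 2) (A : Finset (Fin k)) : ZMod 2 :=
  if h : A.Nonempty then w (A.erase (A.min' h)) else 1

/-- The second factor of the gate of a monomial. -/
def qf {k : ℕ} (y : Fin k → ZMod 2) (A : Finset (Fin k)) : ZMod 2 :=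
  if h : A.Nonempty then y (A.min' h) else 1

theorem chain_iff {k : ℕ} (y : Fin k → ZMod 2) (w : Finset (Fin k) → ZMod 2) :
    (∀ A, w A = pf w A * qf y A) ↔ w = mon y := by
  constructor
  · intro h
    funext A
    induction A using Finset.strongInduction with
    | H A ih =>
      rw [h A]
      unfold pf qf
      by_cases hA : A.Nonempty
      · rw [dif_pos hA, dif_pos hA, ih _ (Finset.erase_ssubset (A.min'_mem hA))]
        unfold mon
        exact Finset.prod_erase_mul A y (A.min'_mem hA)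
      · rw [dif_neg hA, dif_neg hA, Finset.not_nonempty_iff_eq_empty.1 hA]
        unfold mon
        rw [Finset.prod_empty, mul_one]
  · rintro rfl A
    unfold pf qf
    by_cases hA : A.Nonempty
    · rw [dif_pos hA, dif_pos hA]
      unfold mon
      exact (Finset.prod_erase_mul A y (A.min'_mem hA)).symm
    · rw [dif_neg hA, dif_neg hA, Finset.not_nonempty_iff_eq_empty.1 hA]
      unfold mon
      rw [Finset.prod_empty, mul_one]

theorem chain {k : ℕ} {y : X → (Fin k → ZMod 2)} {w : X → (Finset (Fin k) → ZMod 2)}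
    (hy : IsAff y) (hw : IsAff w) :
    PP (2 ^ k * 26) (fun x => (6 * s2 ^ 11) ^ (2 ^ k) * (if w x = mon (y x) then 1 else 0)) := by
  classical
  have hg : ∀ A : Finset (Fin k), PP 26 (fun x => (6 * s2 ^ 11) *
      (if w x A = pf (w x) A * qf (y x) A then 1 else 0)) := by
    intro A
    have hp : IsAff (fun x => pf (w x) A) := by
      by_cases hA : A.Nonempty
      · have e : (fun x => pf (w x) A) = fun x => w x (A.erase (A.min' hA)) := by
          funext x
          exact dif_pos hA
        rw [e]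
        exact hw.coord _
      · have e : (fun x => pf (w x) A) = fun x => 1 := by
          funext x
          exact dif_neg hA
        rw [e]
        exact IsAff.const _
    have hq : IsAff (fun x => qf (y x) A) := by
      by_cases hA : A.Nonempty
      · have e : (fun x => qf (y x) A) = fun x => y x (A.min' hA) := by
          funext x
          exact dif_pos hA
        rw [e]
        exact hy.coord _
      · have e : (fun x => qf (y x) A) = fun x => 1 := by
          funext x
          exact dif_neg hA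
        rw [e]
        exact IsAff.const _
    exact and_gate hp hq (hw.coord A)
  have h := PP.prod (Finset.univ : Finset (Finset (Fin k))) hg
  rw [Finset.card_univ, Fintype.card_finset, Fintype.card_fin] at h
  have e : (fun x => (6 * s2 ^ 11) ^ (2 ^ k) * (if w x = mon (y x) then (1 : ℂ) else 0)) =
      fun x => ∏ A : Finset (Fin k), (6 * s2 ^ 11) *
        (if w x A = pf (w x) A * qf (y x) A then 1 else 0) := by
    funext x
    rw [Finset.prod_mul_distrib, Finset.prod_const, Finset.card_univ, Fintype.card_finset,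
      Fintype.card_fin]
    congr 1
    rw [Finset.prod_ite_zero]
    by_cases hx : w x = mon (y x)
    · rw [if_pos hx, if_pos (fun A _ => (chain_iff _ _).2 hx A), Finset.prod_const_one]
    · rw [if_neg hx, if_neg]
      intro h'
      exact hx ((chain_iff _ _).1 fun A => h' A (Finset.mem_univ A))
  rw [e]
  exact h

end

theorem sum4 {α β γ δ : Type} [Fintype α] [Fintype β] [Fintype γ] [Fintype δ]
    (t : α → β → γ → δ → ZMod 2) :
    ∑ a, ∑ b, ∑ c, ∑ d, t a b c d = ∑ c, ∑ d, ∑ a, ∑ b, t a b c d := by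
  calc ∑ a, ∑ b, ∑ c, ∑ d, t a b c d
      = ∑ a, ∑ c, ∑ b, ∑ d, t a b c d := Finset.sum_congr rfl fun a _ => Finset.sum_comm
    _ = ∑ c, ∑ a, ∑ b, ∑ d, t a b c d := Finset.sum_comm
    _ = ∑ c, ∑ a, ∑ d, ∑ b, t a b c d :=
        Finset.sum_congr rfl fun c _ => Finset.sum_congr rfl fun a _ => Finset.sum_comm
    _ = ∑ c, ∑ d, ∑ a, ∑ b, t a b c d := Finset.sum_congr rfl fun c _ => Finset.sum_comm

/-- The algebraic normal form. -/
theorem anf {k : ℕ} (f : (Fin k → ZMod 2) × (Fin k → ZMod 2) → ZMod 2) :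
    ∃ F : Finset (Fin k) → Finset (Fin k) → ZMod 2,
      ∀ x, f x = ∑ A, ∑ B, F A B * mon x.1 A * mon x.2 B := by
  classical
  let c : (Fin k → ZMod 2) → Finset (Fin k) → ZMod 2 := fun a A => ∏ i ∈ Finset.univ \ A, (a i + 1)
  have h1 : ∀ a y : Fin k → ZMod 2, ∑ A, c a A * mon y A = if y = a then 1 else 0 := by
    intro a y
    have h2 : ∏ i, (y i + (a i + 1)) = ∑ A, c a A * mon y A := by
      rw [Finset.prod_add]
      rw [Finset.powerset_univ]
      refine Finset.sum_congr rfl fun A _ => ?_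
      rw [mul_comm]
      rfl
    rw [← h2]
    by_cases h : y = a
    · rw [if_pos h, h]
      apply Finset.prod_eq_one
      intro i _
      rw [← add_assoc, add_self_X, zero_add]
    · rw [if_neg h]
      obtain ⟨i, hi⟩ := Function.ne_iff.1 h
      apply Finset.prod_eq_zero (Finset.mem_univ i)
      revert hi
      generalize y i = u
      generalize a i = v
      revert u v
      decide
  refine ⟨fun A B => ∑ a, ∑ b, f (a, b) * c a A * c b B, ?_⟩
  intro x
  have h3 : f x = ∑ a, ∑ b, f (a, b) * (∑ A, c a A * mon x.1 A) * (∑ B, c b B * mon x.2 B) := by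
    rw [Finset.sum_eq_single x.1, Finset.sum_eq_single x.2]
    · rw [h1, h1, if_pos rfl, if_pos rfl, mul_one, mul_one]
    · intro b _ hb
      rw [h1 b, if_neg (Ne.symm hb), mul_zero]
    · intro h
      exact absurd (Finset.mem_univ _) h
    · intro a _ ha
      apply Finset.sum_eq_zero
      intro b _
      rw [h1 a, if_neg (Ne.symm ha), mul_zero, zero_mul]
    · intro h
      exact absurd (Finset.mem_univ _) h
  have h4 : ∑ a, ∑ b, f (a, b) * (∑ A, c a A * mon x.1 A) * (∑ B, c b B * mon x.2 B) =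
      ∑ a, ∑ b, ∑ A, ∑ B, f (a, b) * c a A * c b B * mon x.1 A * mon x.2 B := by
    refine Finset.sum_congr rfl fun a _ => Finset.sum_congr rfl fun b _ => ?_
    rw [mul_assoc, Finset.sum_mul_sum, Finset.mul_sum]
    refine Finset.sum_congr rfl fun A _ => ?_
    rw [Finset.mul_sum]
    refine Finset.sum_congr rfl fun B _ => ?_
    ring
  rw [h3, h4, sum4]
  refine Finset.sum_congr rfl fun A _ => Finset.sum_congr rfl fun B _ => ?_
  rw [Finset.sum_mul, Finset.sum_mul]
  refine Finset.sum_congr rfl fun a _ => ?_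
  rw [Finset.sum_mul, Finset.sum_mul]

/-- The constant. -/
noncomputable def cst (k : ℕ) : ℂ := (6 * s2 ^ 11) ^ (2 ^ k) * (6 * s2 ^ 11) ^ (2 ^ k)

theorem cst_ne (k : ℕ) : cst k ≠ 0 := by
  have h : (6 * s2 ^ 11 : ℂ) ≠ 0 := mul_ne_zero (by norm_num) (pow_ne_zero _ s2_ne)
  exact mul_ne_zero (pow_ne_zero _ h) (pow_ne_zero _ h)

/-- **All sign functions of `2 k` bits from `52 * 2 ^ k` copies of `v`.** -/
theorem all_signs (k : ℕ) (f : (Fin k → ZMod 2) × (Fin k → ZMod 2) → ZMod 2) :
    PP (52 * 2 ^ k) (fun x => cst k * sg (f x)) := by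
  classical
  obtain ⟨F, hF⟩ := anf f
  let X := (Fin k → ZMod 2) × (Fin k → ZMod 2)
  let M := Finset (Fin k) → ZMod 2
  have hQ : IsQuad (fun p : X × (M × M) => ∑ A, ∑ B, F A B * p.2.1 A * p.2.2 B) := by
    apply IsQuad.sum
    intro A
    apply IsQuad.sum
    intro B
    refine IsQuad.mul (((IsAff.fst.comp IsAff.snd).coord A).cmul (F A B))
      ((IsAff.snd.comp IsAff.snd).coord B)
  have h1 := PP.phase hQ
  have h2 : PP (2 ^ k * 26) (fun p : X × (M × M) =>
      (6 * s2 ^ 11) ^ (2 ^ k) * (if p.2.1 = mon p.1.1 then 1 else 0)) :=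
    chain (IsAff.fst.comp IsAff.fst) (IsAff.fst.comp IsAff.snd)
  have h3 : PP (2 ^ k * 26) (fun p : X × (M × M) =>
      (6 * s2 ^ 11) ^ (2 ^ k) * (if p.2.2 = mon p.1.2 then 1 else 0)) :=
    chain (IsAff.snd.comp IsAff.fst) (IsAff.snd.comp IsAff.snd)
  have h4 := (h1.mul (h2.mul h3)).sum
  have e0 : 0 + (2 ^ k * 26 + 2 ^ k * 26) = 52 * 2 ^ k := by ring
  rw [e0] at h4
  have e : (fun x => cst k * sg (f x)) = fun x : X => ∑ z : M × M,
      sg (∑ A, ∑ B, F A B * z.1 A * z.2 B) *
        ((6 * s2 ^ 11) ^ (2 ^ k) * (if z.1 = mon x.1 then 1 else 0) *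
          ((6 * s2 ^ 11) ^ (2 ^ k) * (if z.2 = mon x.2 then 1 else 0))) := by
    funext x
    rw [Finset.sum_eq_single (mon x.1, mon x.2)]
    · rw [if_pos rfl, if_pos rfl, hF]
      unfold cst
      ring
    · rintro ⟨z1, z2⟩ _ hz
      by_cases h : z1 = mon x.1
      · have h' : z2 ≠ mon x.2 := by
          rintro rfl
          exact hz (by rw [h])
        rw [if_neg h', mul_zero, mul_zero, mul_zero]
      · rw [if_neg h, mul_zero, zero_mul, mul_zero]
    · intro h
      exact absurd (Finset.mem_univ _) h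
  rw [e]
  exact h4

end Pool.Agent.Q317.SR
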