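import Pool.Agent.Q317.SR.Stab
import Pool.Agent.Q317.SR.Count
import Pool.Agent.Q317.SR.Gates

/-!
# The lower bound for the stabilizer rank
-/

set_option autoImplicit false
set_option linter.unusedSectionVars false
set_option linter.unusedSimpArgs false

namespace Pool.Agent.Q317.SR

theorem finrank_dl (X : Type) [AddCommGroup X] [Module (ZMod 2) X] [Module.Finite (ZMod 2) X] :
    Module.finrank (ZMod 2) (X × Dl X) = 2 * Module.finrank (ZMod 2) X := by
  rw [Module.finrank_prod, Subspace.dual_finrank_eq]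
  ring

theorem finrank_KK (k : ℕ) :
    Module.finrank (ZMod 2) ((Fin k → ZMod 2) × (Fin k → ZMod 2)) = 2 * k := by
  rw [Module.finrank_prod, Module.finrank_fin_fun]
  ring

theorem main_bound (k d r : ℕ) (hd : 52 * 2 ^ k ≤ d)
    (hrep : ∃ (a : Fin r → ℂ) (S : Fin r → (Bits d → ℂ)), (∀ i, IsStab (S i)) ∧
      vpow d = ∑ i, a i • S i) : 4 ^ k ≤ r * (4 * k + 1) ^ 2 := by
  classical
  obtain ⟨a, S, hS, hv⟩ := hrep
  have hn : Module.finrank (ZMod 2) (((Fin k → ZMod 2) × (Fin k → ZMod 2)) ×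
      Dl ((Fin k → ZMod 2) × (Fin k → ZMod 2))) = 4 * k := by
    rw [finrank_dl, finrank_KK]
    ring
  have hcount := count (X := (Fin k → ZMod 2) × (Fin k → ZMod 2)) (4 * k) r hn.le (by
    intro f
    obtain ⟨L, hL1, hL2⟩ := ((all_signs k f).mono hd).map
    refine ⟨fun i => L (S i), fun i => hL1 _ (hS i).mem, ?_⟩
    have h1 : L (vpow d) = fun x => cst k * sg (f x) := hL2
    have h2 : (fun x => sg (f x)) = (cst k)⁻¹ • L (vpow d) := by
      rw [h1]
      funext x
      show sg (f x) = (cst k)⁻¹ * (cst k * sg (f x))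
      rw [← mul_assoc, inv_mul_cancel₀ (cst_ne k), one_mul]
    let S' : Fin r → ((Fin d → ZMod 2) → ℂ) := S
    have hv' : (vpow d : (Fin d → ZMod 2) → ℂ) = ∑ i, a i • S' i := hv
    have h5 : L (vpow d) = ∑ i, a i • L (S' i) := by
      refine (congrArg L hv').trans ?_
      rw [map_sum]
      exact Finset.sum_congr rfl fun i _ => map_smul L _ _
    rw [h2, h5]
    apply Submodule.smul_mem
    apply Submodule.sum_mem
    intro i _
    apply Submodule.smul_mem
    exact Submodule.subset_span ⟨i, rfl⟩)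
  have hX : Fintype.card ((Fin k → ZMod 2) × (Fin k → ZMod 2)) = 4 ^ k := by
    rw [Fintype.card_prod, Fintype.card_fun, ZMod.card, Fintype.card_fin, ← mul_pow]
    norm_num
  have hXD : Nat.card (((Fin k → ZMod 2) × (Fin k → ZMod 2)) ×
      Dl ((Fin k → ZMod 2) × (Fin k → ZMod 2))) = 2 ^ (4 * k) := by
    rw [Nat.card_eq_fintype_card, Module.card_eq_pow_finrank (K := ZMod 2), hn, ZMod.card]
  have hcode : Nat.card (Code ((Fin k → ZMod 2) × (Fin k → ZMod 2)) (4 * k)) =
      2 ^ ((4 * k + 2) * (4 * k)) := by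
    unfold Code
    rw [Nat.card_fun, Nat.card_prod, hXD, Nat.card_eq_fintype_card, Nat.card_eq_fintype_card,
      Fintype.card_fin, Fintype.card_fin, show (4 : ℕ) = 2 ^ 2 from rfl, ← pow_add, ← pow_mul]
  rw [hX, hcode, ← pow_mul, ← pow_add] at hcount
  have h3 := (Nat.pow_le_pow_iff_right (by norm_num : 1 < 2)).1 hcount
  refine h3.trans (le_of_eq ?_)
  ring

theorem stabR_rep (d : ℕ) : ∃ (a : Fin (stabR (vpow d)) → ℂ)
    (S : Fin (stabR (vpow d)) → (Bits d → ℂ)), (∀ i, IsStab (S i)) ∧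
      vpow d = ∑ i, a i • S i := by
  have h : {r | ∃ (a : Fin r → ℂ) (S : Fin r → (Bits d → ℂ)), (∀ i, IsStab (S i)) ∧
    vpow d = ∑ i, a i • S i}.Nonempty := exists_decomp (vpow d)
  exact Nat.sInf_mem h

theorem stabR_pos (d : ℕ) : 1 ≤ stabR (vpow d) := by
  by_contra hc
  have h0 : stabR (vpow d) = 0 := by omega
  obtain ⟨a, S, _, hv⟩ := stabR_rep d
  have h1 : ∑ i, a i • S i = 0 := by
    apply Finset.sum_eq_zero
    intro i _
    have := i.2
    omega
  rw [h1] at hv
  have h2 := congrFun hv 0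
  have h3 : vpow d 0 = 1 := by
    unfold vpow
    exact Finset.prod_eq_one fun j _ => if_pos rfl
  rw [h3] at h2
  exact one_ne_zero h2

/-- **The stabilizer rank of `v ^ ⊗ d` is at least `c d ^ 2 / (log d) ^ 2`.** -/
theorem lower_bound : ∃ c : ℝ, 0 < c ∧ ∀ d : ℕ, 2 ≤ d →
    c * ((d : ℝ) ^ 2 / (Real.log d) ^ 2) ≤ stabR (vpow d) := by
  refine ⟨1 / 692224, by norm_num, fun d hd => ?_⟩
  have hd' : (2 : ℝ) ≤ d := by exact_mod_cast hd
  have hlog2 : 0.6931471803 < Real.log 2 := Real.log_two_gt_d9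
  have hlogd : Real.log 2 ≤ Real.log d := Real.log_le_log (by norm_num) hd'
  have hL0 : 0 < Real.log d := by linarith
  rcases lt_or_ge d 52 with h52 | h52
  · have h1 : (1 : ℝ) ≤ stabR (vpow d) := by exact_mod_cast stabR_pos d
    refine le_trans ?_ h1
    have h2 : (d : ℝ) ≤ 52 := by exact_mod_cast h52.le
    rw [← mul_div_assoc, div_le_one (by positivity)]
    nlinarith
  · set k := Nat.log 2 (d / 52) with hk
    have hne : d / 52 ≠ 0 := by omega
    have h1 : 2 ^ k ≤ d / 52 := Nat.pow_log_le_self 2 hne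
    have h2 : d / 52 < 2 ^ (k + 1) := Nat.lt_pow_succ_log_self (by norm_num) _
    have h3 : 52 * 2 ^ k ≤ d := by omega
    have h4 : d < 104 * 2 ^ k := by
      rw [pow_succ] at h2
      omega
    have hb := main_bound k d _ h3 (stabR_rep d)
    have hb' : (4 : ℝ) ^ k ≤ stabR (vpow d) * (4 * k + 1) ^ 2 := by exact_mod_cast hb
    have h4' : (d : ℝ) ≤ 104 * 2 ^ k := by exact_mod_cast h4.le
    have h5 : (d : ℝ) ^ 2 ≤ 104 ^ 2 * 4 ^ k := by
      have : ((104 : ℝ) * 2 ^ k) ^ 2 = 104 ^ 2 * 4 ^ k := by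
        rw [mul_pow, ← pow_mul, mul_comm k 2, pow_mul]
        norm_num
      rw [← this]
      exact pow_le_pow_left₀ (by positivity) h4' 2
    have h6 : (k : ℝ) * Real.log 2 ≤ Real.log d := by
      rw [← Real.log_pow]
      apply Real.log_le_log (by positivity)
      have : 2 ^ k ≤ d := by omega
      exact_mod_cast this
    have h52' : (2 : ℝ) ^ 5 ≤ d := by
      have : (52 : ℝ) ≤ d := by exact_mod_cast h52
      linarith
    have h7 : 5 * Real.log 2 ≤ Real.log d := by
      have := Real.log_le_log (by norm_num) h52'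
      rw [Real.log_pow] at this
      exact_mod_cast this
    have hk0 : (0 : ℝ) ≤ k := Nat.cast_nonneg k
    have h8 : 4 * (k : ℝ) + 1 ≤ 8 * Real.log d := by nlinarith
    have hr0 : (0 : ℝ) ≤ stabR (vpow d) := Nat.cast_nonneg _
    have h9 : (4 * (k : ℝ) + 1) ^ 2 ≤ (8 * Real.log d) ^ 2 :=
      pow_le_pow_left₀ (by positivity) h8 2
    rw [← mul_div_assoc, div_le_iff₀ (by positivity)]
    calc 1 / 692224 * (d : ℝ) ^ 2 ≤ 1 / 692224 * (104 ^ 2 * (4 : ℝ) ^ k) := by
          apply mul_le_mul_of_nonneg_left h5 (by norm_num)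
      _ ≤ 1 / 692224 * (104 ^ 2 * ((stabR (vpow d) : ℝ) * (4 * k + 1) ^ 2)) := by
          apply mul_le_mul_of_nonneg_left _ (by norm_num)
          apply mul_le_mul_of_nonneg_left hb' (by norm_num)
      _ ≤ 1 / 692224 * (104 ^ 2 * ((stabR (vpow d) : ℝ) * (8 * Real.log d) ^ 2)) := by
          apply mul_le_mul_of_nonneg_left _ (by norm_num)
          apply mul_le_mul_of_nonneg_left _ (by norm_num)
          apply mul_le_mul_of_nonneg_left h9 hr0
      _ = (stabR (vpow d) : ℝ) * Real.log d ^ 2 := by ring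

end Pool.Agent.Q317.SR
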