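import Pool.Agent.Q317.SR.Class

/-!
# Sums over paths with a bounded number of factors `v`

`PP d g` means that `g` is a sum over the points of some finite space of products of a sign given by
a quadratic function and of `d` factors `v (ℓ)`, `ℓ` affine, `v 0 = 1`, `v 1 = √2`.
-/

set_option autoImplicit false
set_option linter.unusedSectionVars false
set_option linter.unusedSimpArgs false

namespace Pool.Agent.Q317.SR

section

variable {X : Type} [AddCommGroup X] [Module (ZMod 2) X]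
variable {Y : Type} [AddCommGroup Y] [Module (ZMod 2) Y]
variable {Z : Type} [AddCommGroup Z] [Module (ZMod 2) Z]

theorem IsAff.of_linear (M : Y →ₗ[ZMod 2] X) : IsAff (fun y => M y) :=
  ⟨M, 0, fun y => (add_zero _).symm⟩

theorem IsAff.const (t : X) : IsAff (fun _ : Y => t) := ⟨0, t, fun y => (zero_add _).symm⟩

theorem IsAff.comp {f : Y → X} {g : Z → Y} (hf : IsAff f) (hg : IsAff g) :
    IsAff (fun z => f (g z)) := by
  obtain ⟨M, t, hM⟩ := hf
  obtain ⟨N, s, hN⟩ := hg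
  refine ⟨M.comp N, M s + t, fun z => ?_⟩
  show f (g z) = _
  rw [hM, hN, map_add, LinearMap.comp_apply, add_assoc]

theorem IsAff.add {f g : Y → X} (hf : IsAff f) (hg : IsAff g) : IsAff (fun y => f y + g y) := by
  obtain ⟨M, t, hM⟩ := hf
  obtain ⟨N, s, hN⟩ := hg
  refine ⟨M + N, t + s, fun z => ?_⟩
  show f z + g z = _
  rw [hM, hN, LinearMap.add_apply]
  abel

theorem IsAff.cmul (c : ZMod 2) {f : Y → ZMod 2} (hf : IsAff f) : IsAff (fun y => c * f y) := by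
  obtain ⟨M, t, hM⟩ := hf
  refine ⟨c • M, c * t, fun z => ?_⟩
  show c * f z = _
  rw [hM, LinearMap.smul_apply, smul_eq_mul, mul_add]

theorem IsAff.fst : IsAff (fun p : X × Y => p.1) := IsAff.of_linear (LinearMap.fst (ZMod 2) X Y)
theorem IsAff.snd : IsAff (fun p : X × Y => p.2) := IsAff.of_linear (LinearMap.snd (ZMod 2) X Y)

theorem IsAff.prod {f : Z → X} {g : Z → Y} (hf : IsAff f) (hg : IsAff g) :
    IsAff (fun z => (f z, g z)) := by
  obtain ⟨M, t, hM⟩ := hf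
  obtain ⟨N, s, hN⟩ := hg
  refine ⟨M.prod N, (t, s), fun z => ?_⟩
  show (f z, g z) = _
  rw [hM, hN]
  rfl

theorem IsAff.coord {J : Type} {θ : Y → (J → ZMod 2)} (h : IsAff θ) (j : J) :
    IsAff (fun y => θ y j) := by
  obtain ⟨M, t, hM⟩ := h
  exact ⟨(LinearMap.proj j).comp M, t j, fun y => by
    show θ y j = _
    rw [hM]
    rfl⟩

theorem IsAff.pi {J : Type} {θ : Y → (J → ZMod 2)} (h : ∀ j, IsAff (fun y => θ y j)) :
    IsAff θ := by
  choose M t hM using h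
  refine ⟨LinearMap.pi M, t, fun y => ?_⟩
  funext j
  exact hM j y

theorem IsQuad.comp {Q : X → ZMod 2} (hQ : IsQuad Q) {θ : Y → X} (hθ : IsAff θ) :
    IsQuad (fun y => Q (θ y)) := by
  obtain ⟨M, t, hM⟩ := hθ
  intro b
  obtain ⟨χ, c, h⟩ := hQ (M b)
  refine ⟨χ.comp M, χ t + c, fun y => ?_⟩
  show Q (θ (y + b)) = Q (θ y) + (χ.comp M) y + (χ t + c)
  have h3 : θ (y + b) = θ y + M b := by
    rw [hM, hM, map_add]
    abel
  rw [h3, h, hM, map_add, LinearMap.comp_apply]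
  ring

theorem IsQuad.add {Q R : X → ZMod 2} (hQ : IsQuad Q) (hR : IsQuad R) :
    IsQuad (fun x => Q x + R x) := by
  intro a
  obtain ⟨χ, c, h⟩ := hQ a
  obtain ⟨χ', c', h'⟩ := hR a
  refine ⟨χ + χ', c + c', fun x => ?_⟩
  show Q (x + a) + R (x + a) = _
  rw [h, h', LinearMap.add_apply]
  ring

theorem IsQuad.zero : IsQuad (fun _ : X => 0) := fun _ => ⟨0, 0, fun x => by simp⟩

theorem IsQuad.sum {ι : Type} (s : Finset ι) {Q : ι → X → ZMod 2} (h : ∀ i, IsQuad (Q i)) :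
    IsQuad (fun x => ∑ i ∈ s, Q i x) := by
  classical
  induction s using Finset.induction_on with
  | empty => simpa using IsQuad.zero
  | insert a s ha ih =>
    have e : (fun x => ∑ i ∈ insert a s, Q i x) = fun x => Q a x + ∑ i ∈ s, Q i x := by
      funext x
      rw [Finset.sum_insert ha]
    rw [e]
    exact (h a).add ih

theorem IsQuad.mul {f g : X → ZMod 2} (hf : IsAff f) (hg : IsAff g) :
    IsQuad (fun x => f x * g x) := by
  obtain ⟨M, t, hM⟩ := hf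
  obtain ⟨N, s, hN⟩ := hg
  intro a
  refine ⟨(N a) • M + (M a) • N, M a * s + N a * t + M a * N a, fun x => ?_⟩
  show f (x + a) * g (x + a) = f x * g x + _ + _
  rw [hM, hN, hM, hN, map_add, map_add, LinearMap.add_apply, LinearMap.smul_apply,
    LinearMap.smul_apply, smul_eq_mul, smul_eq_mul]
  ring

theorem IsQuad.of_aff {f : X → ZMod 2} (hf : IsAff f) : IsQuad f := by
  have h := IsQuad.mul hf (IsAff.const (Y := X) (1 : ZMod 2))
  simpa using h

end

/-- The entries of the vector `v`. -/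
noncomputable def vv (a : ZMod 2) : ℂ := if a = 0 then 1 else (Real.sqrt 2 : ℝ)

@[simp] theorem vv_zero : vv 0 = 1 := if_pos rfl
theorem vv_one : vv 1 = (Real.sqrt 2 : ℝ) := if_neg (by decide)

theorem vv_eq (a : ZMod 2) : vv a = ((Real.sqrt 2 : ℝ) : ℂ) ^ a.val := by
  rcases zm2 a with rfl | rfl
  · simp
  · rw [vv_one]
    show _ = ((Real.sqrt 2 : ℝ) : ℂ) ^ 1
    rw [pow_one]

section

variable {X : Type} [AddCommGroup X] [Module (ZMod 2) X]
variable {Z : Type} [AddCommGroup Z] [Module (ZMod 2) Z]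

/-- Sums over paths. -/
def PP (d : ℕ) {X : Type} [AddCommGroup X] [Module (ZMod 2) X] (g : X → ℂ) : Prop :=
  ∃ (Y : Type) (_ : AddCommGroup Y) (_ : Module (ZMod 2) Y) (_ : Fintype Y) (J : Type)
    (_ : Fintype J) (Q : X × Y → ZMod 2) (θ : X × Y → (J → ZMod 2)),
    IsQuad Q ∧ IsAff θ ∧ Fintype.card J = d ∧
      ∀ x, g x = ∑ y, sg (Q (x, y)) * ∏ j, vv (θ (x, y) j)

theorem PP.mul {d e : ℕ} {g h : X → ℂ} (hg : PP d g) (hh : PP e h) :
    PP (d + e) (fun x => g x * h x) := by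
  obtain ⟨Y, i1, i2, i3, J, i4, Q, θ, hQ, hθ, hc, hx⟩ := hg
  obtain ⟨Y', j1, j2, j3, J', j4, Q', θ', hQ', hθ', hc', hx'⟩ := hh
  have a1 : IsAff (fun p : X × (Y × Y') => (p.1, p.2.1)) :=
    IsAff.prod IsAff.fst (IsAff.fst.comp IsAff.snd)
  have a2 : IsAff (fun p : X × (Y × Y') => (p.1, p.2.2)) :=
    IsAff.prod IsAff.fst (IsAff.snd.comp IsAff.snd)
  refine ⟨Y × Y', inferInstance, inferInstance, inferInstance, J ⊕ J', inferInstance,
    fun p => Q (p.1, p.2.1) + Q' (p.1, p.2.2),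
    fun p => Sum.elim (θ (p.1, p.2.1)) (θ' (p.1, p.2.2)), (hQ.comp a1).add (hQ'.comp a2), ?_, ?_,
    ?_⟩
  · apply IsAff.pi
    rintro (j | j)
    · exact (hθ.coord j).comp a1
    · exact (hθ'.coord j).comp a2
  · rw [Fintype.card_sum, hc, hc']
  · intro x
    show g x * h x = _
    rw [hx, hx', Fintype.sum_prod_type, Finset.sum_mul_sum]
    refine Finset.sum_congr rfl fun y _ => Finset.sum_congr rfl fun y' _ => ?_
    rw [Fintype.prod_sum_type, sg_add]
    show sg (Q (x, y)) * (∏ j, vv (θ (x, y) j)) * (sg (Q' (x, y')) * ∏ j, vv (θ' (x, y') j)) =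
      sg (Q (x, y)) * sg (Q' (x, y')) * ((∏ j, vv (θ (x, y) j)) * ∏ j, vv (θ' (x, y') j))
    ring

theorem PP.sum [Fintype Z] {d : ℕ} {g : X × Z → ℂ} (hg : PP d g) :
    PP d (fun x => ∑ z, g (x, z)) := by
  obtain ⟨Y, i1, i2, i3, J, i4, Q, θ, hQ, hθ, hc, hx⟩ := hg
  have a1 : IsAff (fun p : X × (Z × Y) => ((p.1, p.2.1), p.2.2)) :=
    IsAff.prod (IsAff.prod IsAff.fst (IsAff.fst.comp IsAff.snd)) (IsAff.snd.comp IsAff.snd)
  refine ⟨Z × Y, inferInstance, inferInstance, inferInstance, J, i4,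
    fun p => Q ((p.1, p.2.1), p.2.2), fun p => θ ((p.1, p.2.1), p.2.2), hQ.comp a1, hθ.comp a1,
    hc, ?_⟩
  intro x
  rw [Fintype.sum_prod_type]
  exact Finset.sum_congr rfl fun z _ => hx (x, z)

theorem PP.comp {d : ℕ} {g : X → ℂ} (hg : PP d g) {θ0 : Z → X} (h0 : IsAff θ0) :
    PP d (fun z => g (θ0 z)) := by
  obtain ⟨Y, i1, i2, i3, J, i4, Q, θ, hQ, hθ, hc, hx⟩ := hg
  have a1 : IsAff (fun p : Z × Y => (θ0 p.1, p.2)) := IsAff.prod (h0.comp IsAff.fst) IsAff.snd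
  exact ⟨Y, i1, i2, i3, J, i4, fun p => Q (θ0 p.1, p.2), fun p => θ (θ0 p.1, p.2), hQ.comp a1,
    hθ.comp a1, hc, fun z => hx (θ0 z)⟩

theorem PP.prim {J : Type} [Fintype J] {Q : X → ZMod 2} (hQ : IsQuad Q) {ℓ : J → X → ZMod 2}
    (hℓ : ∀ j, IsAff (ℓ j)) : PP (Fintype.card J) (fun x => sg (Q x) * ∏ j, vv (ℓ j x)) := by
  refine ⟨Fin 0 → ZMod 2, inferInstance, inferInstance, inferInstance, J, inferInstance,
    fun p => Q p.1, fun p j => ℓ j p.1, hQ.comp IsAff.fst,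
    IsAff.pi fun j => (hℓ j).comp IsAff.fst, rfl, fun x => ?_⟩
  rw [Fintype.sum_unique]

theorem PP.phase {Q : X → ZMod 2} (hQ : IsQuad Q) : PP 0 (fun x => sg (Q x)) := by
  have h := PP.prim (J := Fin 0) hQ (ℓ := fun _ _ => 0) (fun j => j.elim0)
  simpa using h

theorem PP.mono {d D : ℕ} (hD : d ≤ D) {g : X → ℂ} (hg : PP d g) : PP D g := by
  obtain ⟨Y, i1, i2, i3, J, i4, Q, θ, hQ, hθ, hc, hx⟩ := hg
  refine ⟨Y, i1, i2, i3, J ⊕ Fin (D - d), inferInstance, Q, fun p => Sum.elim (θ p) (fun _ => 0),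
    hQ, ?_, ?_, ?_⟩
  · apply IsAff.pi
    rintro (j | j)
    · exact hθ.coord j
    · exact IsAff.const 0
  · rw [Fintype.card_sum, hc, Fintype.card_fin]
    omega
  · intro x
    rw [hx]
    refine Finset.sum_congr rfl fun y _ => ?_
    rw [Fintype.prod_sum_type]
    simp

/-- The sum over paths as a linear map applied to the tensor power of `v`. -/
theorem PP.map [Fintype X] {D : ℕ} {g : X → ℂ} (hg : PP D g) :
    ∃ L : ((Fin D → ZMod 2) → ℂ) →ₗ[ℂ] (X → ℂ),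
      (∀ φ ∈ SS (Fin D → ZMod 2), L φ ∈ SS X) ∧ L (fun w => ∏ j, vv (w j)) = g := by
  obtain ⟨Y, i1, i2, i3, J, i4, Q, θ, hQ, hθ, hc, hx⟩ := hg
  let e : Fin D ≃ J := (Fintype.equivFinOfCardEq hc).symm
  let θ' : X × Y → (Fin D → ZMod 2) := fun p j => θ p (e j)
  have hθ' : IsAff θ' := IsAff.pi fun j => hθ.coord (e j)
  let L : ((Fin D → ZMod 2) → ℂ) →ₗ[ℂ] (X → ℂ) :=
    { toFun := fun φ x => ∑ y, sg (Q (x, y)) * φ (θ' (x, y))
      map_add' := by
        intro φ ψ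
        funext x
        show ∑ y, sg (Q (x, y)) * (φ (θ' (x, y)) + ψ (θ' (x, y))) =
          ∑ y, sg (Q (x, y)) * φ (θ' (x, y)) + ∑ y, sg (Q (x, y)) * ψ (θ' (x, y))
        rw [← Finset.sum_add_distrib]
        refine Finset.sum_congr rfl fun y _ => ?_
        ring
      map_smul' := by
        intro c φ
        funext x
        show ∑ y, sg (Q (x, y)) * (c * φ (θ' (x, y))) = c * ∑ y, sg (Q (x, y)) * φ (θ' (x, y))
        rw [Finset.mul_sum]
        refine Finset.sum_congr rfl fun y _ => ?_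
        ring }
  refine ⟨L, ?_, ?_⟩
  · intro φ hφ
    exact SS_sum (SS_phase hQ (SS_pullback hθ' hφ))
  · funext x
    show ∑ y, sg (Q (x, y)) * ∏ j, vv (θ' (x, y) j) = g x
    rw [hx]
    refine Finset.sum_congr rfl fun y _ => ?_
    congr 1
    exact Equiv.prod_comp e (fun j => vv (θ (x, y) j))

/-- The coefficients of the affine functions of the gadget. -/
def cf : Fin 26 → Fin 5 → ZMod 2 :=
  ![![1, 0, 0, 0, 0], ![0, 1, 0, 0, 0], ![0, 0, 1, 0, 0], ![0, 0, 0, 1, 0],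
    ![1, 1, 0, 0, 1], ![1, 0, 1, 0, 1], ![1, 0, 0, 1, 1], ![0, 1, 1, 0, 1],
    ![0, 1, 0, 1, 1], ![0, 0, 1, 1, 1],
    ![1, 1, 1, 0, 0], ![1, 1, 0, 1, 0], ![1, 0, 1, 1, 0], ![0, 1, 1, 1, 0],
    ![1, 1, 1, 1, 1],
    ![0, 0, 0, 1, 1], ![0, 0, 0, 1, 1], ![0, 0, 0, 1, 1], ![0, 0, 0, 1, 1],
    ![1, 0, 0, 0, 1], ![0, 1, 0, 0, 1], ![0, 0, 1, 0, 1],
    ![1, 1, 0, 0, 0], ![1, 0, 1, 0, 0], ![0, 1, 1, 0, 0],
    ![1, 1, 1, 0, 1]]

/-- The affine functions of the gadget. -/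
def lf (j : Fin 26) (a b c w : ZMod 2) : ZMod 2 :=
  cf j 0 * a + cf j 1 * b + cf j 2 * c + cf j 3 * w + cf j 4

theorem lf_sum0 : ∀ a b c : ZMod 2, ∑ j, (lf j a b c 0).val = 15 - 4 * (a * b * c).val := by
  decide

theorem lf_sum1 : ∀ a b c : ZMod 2, ∑ j, (lf j a b c 1).val = 11 + 4 * (a * b * c).val := by
  decide

end

end Pool.Agent.Q317.SR
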