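import Pool.Agent.Q317.SR.Defs
import Pool.Agent.Q317.SR.Class

/-!
# Stabilizer states belong to the class
-/

set_option autoImplicit false
set_option linter.unusedSectionVars false
set_option linter.unusedSimpArgs false

namespace Pool.Agent.Q317.SR

theorem P1_mono {q : Matrix (Fin 2) (Fin 2) ℂ} (h : q ∈ P1) :
    (q 0 1 = 0 ∧ q 1 0 = 0) ∨ (q 0 0 = 0 ∧ q 1 1 = 0) := by
  unfold P1 at h
  induction h using Submonoid.closure_induction with
  | mem x hx =>
    simp only [Set.mem_insert_iff, Set.mem_singleton_iff] at hx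
    rcases hx with rfl | rfl | rfl
    · right; simp [pX]
    · right; simp [pY]
    · left; simp [pZ]
  | one => left; simp
  | mul x y _ _ hx hy =>
    simp only [Matrix.mul_apply, Fin.sum_univ_two]
    rcases hx with ⟨h1, h2⟩ | ⟨h1, h2⟩ <;> rcases hy with ⟨h3, h4⟩ | ⟨h3, h4⟩ <;>
      simp [h1, h2, h3, h4]

theorem pX_mem : pX ∈ P1 := Submonoid.subset_closure (by simp)
theorem pZ_mem : pZ ∈ P1 := Submonoid.subset_closure (by simp)

theorem tensor_mul {d : ℕ} (p q : Fin d → Matrix (Fin 2) (Fin 2) ℂ) :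
    tensor p * tensor q = tensor (fun j => p j * q j) := by
  ext x z
  rw [Matrix.mul_apply]
  show ∑ y : Bits d, (∏ j, p j (x j) (y j)) * (∏ j, q j (y j) (z j)) = ∏ j, (p j * q j) (x j) (z j)
  simp only [Matrix.mul_apply]
  rw [Finset.prod_univ_sum, Fintype.piFinset_univ]
  refine Finset.sum_congr rfl fun y _ => ?_
  rw [Finset.prod_mul_distrib]

theorem tensor_one {d : ℕ} : tensor (fun _ : Fin d => (1 : Matrix (Fin 2) (Fin 2) ℂ)) = 1 := by
  ext x y
  show ∏ j, (1 : Matrix (Fin 2) (Fin 2) ℂ) (x j) (y j) = (1 : Matrix (Bits d) (Bits d) ℂ) x y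
  by_cases h : x = y
  · rw [h, Matrix.one_apply_eq]
    exact Finset.prod_eq_one fun j _ => Matrix.one_apply_eq _
  · rw [Matrix.one_apply_ne h]
    obtain ⟨j, hj⟩ := Function.ne_iff.1 h
    exact Finset.prod_eq_zero (Finset.mem_univ j) (Matrix.one_apply_ne hj)

theorem tensor_star {d : ℕ} (p : Fin d → Matrix (Fin 2) (Fin 2) ℂ) :
    star (tensor p) = tensor (fun j => star (p j)) := by
  ext x y
  show star (∏ j, p j (y j) (x j)) = ∏ j, star (p j (y j) (x j))
  rw [star_prod]

/-- The matrix of a Pauli operator. -/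
noncomputable def pm (a b : ZMod 2) : Matrix (Fin 2) (Fin 2) ℂ :=
  (if b = 0 then 1 else pZ) * (if a = 0 then 1 else pX)

theorem pm_mem (a b : ZMod 2) : pm a b ∈ P1 := by
  unfold pm
  apply Submonoid.mul_mem
  · split
    · exact P1.one_mem
    · exact pZ_mem
  · split
    · exact P1.one_mem
    · exact pX_mem

theorem pm00 : pm 0 0 = !![1, 0; 0, 1] := by
  ext x y
  fin_cases x <;> fin_cases y <;> simp [pm, pX, pZ, Matrix.mul_apply, Fin.sum_univ_two]

theorem pm10 : pm 1 0 = !![0, 1; 1, 0] := by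
  ext x y
  fin_cases x <;> fin_cases y <;> simp [pm, pX, pZ, Matrix.mul_apply, Fin.sum_univ_two]

theorem pm01 : pm 0 1 = !![1, 0; 0, -1] := by
  ext x y
  fin_cases x <;> fin_cases y <;> simp [pm, pX, pZ, Matrix.mul_apply, Fin.sum_univ_two]

theorem pm11 : pm 1 1 = !![0, 1; -1, 0] := by
  ext x y
  fin_cases x <;> fin_cases y <;> simp [pm, pX, pZ, Matrix.mul_apply, Fin.sum_univ_two]

theorem pm_apply (a b x y : ZMod 2) : pm a b x y = if y = x + a then sg (b * x) else 0 := by
  rcases zm2 a with rfl | rfl <;> rcases zm2 b with rfl | rfl <;> rcases zm2 x with rfl | rfl <;>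
    rcases zm2 y with rfl | rfl
  · rw [pm00]
    show (1 : ℂ) = if (((0 : ZMod 2)) = 0 + 0) then sg (0 * 0) else 0
    rw [if_pos (by decide), show ((0 : ZMod 2) * 0) = 0 from by decide, sg_zero]
  · rw [pm00]
    show (0 : ℂ) = if (((1 : ZMod 2)) = 0 + 0) then sg (0 * 0) else 0
    rw [if_neg (by decide)]
  · rw [pm00]
    show (0 : ℂ) = if (((0 : ZMod 2)) = 1 + 0) then sg (0 * 1) else 0
    rw [if_neg (by decide)]
  · rw [pm00]
    show (1 : ℂ) = if (((1 : ZMod 2)) = 1 + 0) then sg (0 * 1) else 0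
    rw [if_pos (by decide), show ((0 : ZMod 2) * 1) = 0 from by decide, sg_zero]
  · rw [pm01]
    show (1 : ℂ) = if (((0 : ZMod 2)) = 0 + 0) then sg (1 * 0) else 0
    rw [if_pos (by decide), show ((1 : ZMod 2) * 0) = 0 from by decide, sg_zero]
  · rw [pm01]
    show (0 : ℂ) = if (((1 : ZMod 2)) = 0 + 0) then sg (1 * 0) else 0
    rw [if_neg (by decide)]
  · rw [pm01]
    show (0 : ℂ) = if (((0 : ZMod 2)) = 1 + 0) then sg (1 * 1) else 0
    rw [if_neg (by decide)]
  · rw [pm01]
    show (-1 : ℂ) = if (((1 : ZMod 2)) = 1 + 0) then sg (1 * 1) else 0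
    rw [if_pos (by decide), show ((1 : ZMod 2) * 1) = 1 from by decide, sg_one]
  · rw [pm10]
    show (0 : ℂ) = if (((0 : ZMod 2)) = 0 + 1) then sg (0 * 0) else 0
    rw [if_neg (by decide)]
  · rw [pm10]
    show (1 : ℂ) = if (((1 : ZMod 2)) = 0 + 1) then sg (0 * 0) else 0
    rw [if_pos (by decide), show ((0 : ZMod 2) * 0) = 0 from by decide, sg_zero]
  · rw [pm10]
    show (1 : ℂ) = if (((0 : ZMod 2)) = 1 + 1) then sg (0 * 1) else 0
    rw [if_pos (by decide), show ((0 : ZMod 2) * 1) = 0 from by decide, sg_zero]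
  · rw [pm10]
    show (0 : ℂ) = if (((1 : ZMod 2)) = 1 + 1) then sg (0 * 1) else 0
    rw [if_neg (by decide)]
  · rw [pm11]
    show (0 : ℂ) = if (((0 : ZMod 2)) = 0 + 1) then sg (1 * 0) else 0
    rw [if_neg (by decide)]
  · rw [pm11]
    show (1 : ℂ) = if (((1 : ZMod 2)) = 0 + 1) then sg (1 * 0) else 0
    rw [if_pos (by decide), show ((1 : ZMod 2) * 0) = 0 from by decide, sg_zero]
  · rw [pm11]
    show (-1 : ℂ) = if (((0 : ZMod 2)) = 1 + 1) then sg (1 * 1) else 0
    rw [if_pos (by decide), show ((1 : ZMod 2) * 1) = 1 from by decide, sg_one]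
  · rw [pm11]
    show (0 : ℂ) = if (((1 : ZMod 2)) = 1 + 1) then sg (1 * 1) else 0
    rw [if_neg (by decide)]

theorem sg_sum {ι : Type} (s : Finset ι) (f : ι → ZMod 2) : sg (∑ i ∈ s, f i) = ∏ i ∈ s, sg (f i) := by
  classical
  induction s using Finset.induction_on with
  | empty => simp
  | insert a s ha ih => rw [Finset.sum_insert ha, Finset.prod_insert ha, sg_add, ih]

theorem W_eq {d : ℕ} (a : Fin d → ZMod 2) (χ : Dl (Fin d → ZMod 2)) (φ : (Fin d → ZMod 2) → ℂ) :
    W a χ φ = (tensor (fun j => pm (a j) (χ (Pi.single j 1)))).mulVec φ := by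
  classical
  funext x
  have e1 : (tensor (fun j => pm (a j) (χ (Pi.single j 1)))).mulVec φ x =
      ∑ y : Fin d → ZMod 2, (∏ j, pm (a j) (χ (Pi.single j 1)) (x j) (y j)) * φ y := rfl
  rw [e1, Finset.sum_eq_single (x + a)]
  · have e2 : ∀ j ∈ (Finset.univ : Finset (Fin d)),
        pm (a j) (χ (Pi.single j 1)) (x j) ((x + a) j) = sg (χ (Pi.single j 1) * x j) := by
      intro j _
      rw [pm_apply]
      exact if_pos rfl
    rw [Finset.prod_congr rfl e2, ← sg_sum]
    show sg (χ x) * φ (x + a) = _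
    congr 2
    rw [LinearMap.pi_apply_eq_sum_univ χ x]
    refine Finset.sum_congr rfl fun j _ => ?_
    rw [smul_eq_mul, mul_comm]
    congr 2
    funext i
    by_cases h : i = j
    · subst h
      simp
    · rw [Pi.single_eq_of_ne h, if_neg (Ne.symm h)]
  · intro y _ hy
    obtain ⟨j, hj⟩ := Function.ne_iff.1 hy
    have h0 : ∏ j, pm (a j) (χ (Pi.single j 1)) (x j) (y j) = 0 := by
      apply Finset.prod_eq_zero (Finset.mem_univ j)
      rw [pm_apply]
      exact if_neg hj
    rw [h0, zero_mul]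
  · intro h
    exact absurd (Finset.mem_univ _) h

theorem ip_eq {d : ℕ} (ψ φ : Bits d → ℂ) :
    ip (X := Fin d → ZMod 2) ψ φ = star ψ ⬝ᵥ φ := rfl

theorem e0_dot {d : ℕ} (M : Matrix (Bits d) (Bits d) ℂ) :
    star (e0 d) ⬝ᵥ M.mulVec (e0 d) = M 0 0 := by
  have h : star (e0 d) = Pi.single 0 1 := by
    funext x
    show star (e0 d x) = _
    unfold e0
    by_cases hx : x = 0
    · rw [if_pos hx, hx, Pi.single_eq_same, star_one]
    · rw [if_neg hx, Pi.single_eq_of_ne hx, star_zero]
  have h' : e0 d = Pi.single 0 1 := by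
    funext x
    unfold e0
    by_cases hx : x = 0
    · rw [if_pos hx, hx, Pi.single_eq_same]
    · rw [if_neg hx, Pi.single_eq_of_ne hx]
  rw [h, h', single_one_dotProduct, Matrix.mulVec_single_one]
  rfl

/-- **Stabilizer states belong to the class.** -/
theorem IsStab.mem {d : ℕ} {ψ : Bits d → ℂ} (h : IsStab ψ) : ψ ∈ SS (Fin d → ZMod 2) := by
  classical
  obtain ⟨U, ⟨hU, hUP⟩, rfl⟩ := h
  intro a χ
  have hU1 : star U * U = 1 := Matrix.mem_unitaryGroup_iff'.1 hU
  have hU2 : U * star U = 1 := Matrix.mem_unitaryGroup_iff.1 hU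
  set P : Matrix (Bits d) (Bits d) ℂ := tensor (fun j => pm (a j) (χ (Pi.single j 1))) with hPdef
  have hP : IsPauli P := ⟨_, fun j => pm_mem _ _, rfl⟩
  have hM : IsPauli (star U * P * U) := by
    rw [hUP]
    have e : U * (star U * P * U) * star U = (U * star U) * P * (U * star U) := by
      simp only [Matrix.mul_assoc]
    rw [e, hU2, Matrix.one_mul, Matrix.mul_one]
    exact hP
  obtain ⟨q, hq, hMq⟩ := hM
  have hPU : P.mulVec (U.mulVec (e0 d)) = U.mulVec ((star U * P * U).mulVec (e0 d)) := by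
    rw [Matrix.mulVec_mulVec, Matrix.mulVec_mulVec]
    congr 1
    have e : U * (star U * P * U) = (U * star U) * (P * U) := by
      simp only [Matrix.mul_assoc]
    rw [e, hU2, Matrix.one_mul]
  have hWP : W a χ (U.mulVec (e0 d)) = P.mulVec (U.mulVec (e0 d)) := W_eq a χ _
  by_cases hall : ∀ j, q j 1 0 = 0
  · left
    refine ⟨∏ j, q j 0 0, ?_⟩
    have h1 : (star U * P * U).mulVec (e0 d) = (∏ j, q j 0 0) • e0 d := by
      rw [hMq]
      funext x
      have h2 : (tensor q).mulVec (e0 d) x = (tensor q) x 0 := by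
        have h' : e0 d = Pi.single 0 1 := by
          funext x
          unfold e0
          by_cases hx : x = 0
          · rw [if_pos hx, hx, Pi.single_eq_same]
          · rw [if_neg hx, Pi.single_eq_of_ne hx]
        rw [h', Matrix.mulVec_single_one]
        rfl
      rw [h2]
      show ∏ j, q j (x j) 0 = (∏ j, q j 0 0) * e0 d x
      unfold e0
      by_cases hx : x = 0
      · rw [if_pos hx, hx, mul_one]
        rfl
      · rw [if_neg hx, mul_zero]
        obtain ⟨j, hj⟩ := Function.ne_iff.1 hx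
        apply Finset.prod_eq_zero (Finset.mem_univ j)
        have h3 : x j = 1 := by
          have h4 : x j ≠ 0 := hj
          revert h4
          generalize x j = u
          revert u
          decide
        rw [h3]
        exact hall j
    show W a χ (U.mulVec (e0 d)) = _
    rw [hWP, hPU, h1, Matrix.mulVec_smul]
    rfl
  · right
    push Not at hall
    obtain ⟨j, hj⟩ := hall
    have hq0 : q j 0 0 = 0 := by
      rcases P1_mono (hq j) with h1 | h1
      · exact absurd h1.2 hj
      · exact h1.1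
    have h1 : ip (X := Fin d → ZMod 2) (U.mulVec (e0 d)) (W a χ (U.mulVec (e0 d))) =
        (star U * P * U) (0 : Bits d) (0 : Bits d) := by
      rw [hWP, hPU, ip_eq, ← e0_dot (star U * P * U), Matrix.star_mulVec, ← Matrix.dotProduct_mulVec,
        Matrix.mulVec_mulVec, show Matrix.conjTranspose U * U = 1 from hU1, Matrix.one_mulVec]
    rw [h1, hMq]
    exact Finset.prod_eq_zero (Finset.mem_univ j) hq0

/-- Basis vectors are stabilizer states. -/
theorem basis_stab {d : ℕ} (x : Bits d) : IsStab (Pi.single x (1 : ℂ) : Bits d → ℂ) := by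
  classical
  let p : Fin d → Matrix (Fin 2) (Fin 2) ℂ := fun j => if x j = 0 then 1 else pX
  have hXX : pX * pX = 1 := by
    ext i j
    fin_cases i <;> fin_cases j <;> simp [pX, Matrix.mul_apply, Fin.sum_univ_two]
  have hXs : star pX = pX := by
    ext i j
    fin_cases i <;> fin_cases j <;> simp [pX, Matrix.star_apply]
  have hp1 : ∀ j, p j ∈ P1 := by
    intro j
    show (if x j = 0 then 1 else pX) ∈ P1
    split
    · exact P1.one_mem
    · exact pX_mem
  have hps : ∀ j, star (p j) = p j := by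
    intro j
    show star (if x j = 0 then 1 else pX) = (if x j = 0 then 1 else pX)
    split
    · exact star_one _
    · exact hXs
  have hpp : ∀ j, p j * p j = 1 := by
    intro j
    show (if x j = 0 then 1 else pX) * (if x j = 0 then 1 else pX) = 1
    split
    · exact mul_one _
    · exact hXX
  have hs : star (tensor p) = tensor p := by
    rw [tensor_star]
    congr 1
    funext j
    exact hps j
  have hsq : tensor p * tensor p = 1 := by
    rw [tensor_mul]
    have e : (fun j => p j * p j) = fun _ => 1 := by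
      funext j
      exact hpp j
    rw [e, tensor_one]
  have hpauli : ∀ M, IsPauli M → IsPauli (tensor p * M * tensor p) := by
    rintro M ⟨q, hq, rfl⟩
    refine ⟨fun j => p j * q j * p j, fun j => P1.mul_mem (P1.mul_mem (hp1 j) (hq j)) (hp1 j), ?_⟩
    rw [tensor_mul, tensor_mul]
  refine ⟨tensor p, ⟨?_, ?_⟩, ?_⟩
  · rw [Matrix.mem_unitaryGroup_iff, hs, hsq]
  · intro M
    rw [hs]
    constructor
    · exact hpauli M
    · intro h
      have h2 := hpauli _ h
      have e : tensor p * (tensor p * M * tensor p) * tensor p =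
          (tensor p * tensor p) * M * (tensor p * tensor p) := by
        simp only [Matrix.mul_assoc]
      rw [e, hsq, Matrix.one_mul, Matrix.mul_one] at h2
      exact h2
  · have h' : e0 d = Pi.single 0 1 := by
      funext x
      unfold e0
      by_cases hx : x = 0
      · rw [if_pos hx, hx, Pi.single_eq_same]
      · rw [if_neg hx, Pi.single_eq_of_ne hx]
    rw [h', Matrix.mulVec_single_one]
    funext y
    show (Pi.single x (1 : ℂ) : Bits d → ℂ) y = ∏ j, p j (y j) 0
    have hpv : ∀ j, p j (y j) 0 = if y j = x j then 1 else 0 := by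
      intro j
      show (if x j = 0 then (1 : Matrix (Fin 2) (Fin 2) ℂ) else pX) (y j) 0 = _
      generalize x j = u
      generalize y j = w
      have h01 : ∀ u : Fin 2, u = 0 ∨ u = 1 := by decide
      rcases h01 u with rfl | rfl <;> rcases h01 w with rfl | rfl <;> simp [pX]
    by_cases h : y = x
    · rw [h, Pi.single_eq_same]
      symm
      apply Finset.prod_eq_one
      intro j _
      rw [← h, hpv, h]
      simp
    · rw [Pi.single_eq_of_ne h]
      obtain ⟨j, hj⟩ := Function.ne_iff.1 h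
      symm
      apply Finset.prod_eq_zero (Finset.mem_univ j)
      rw [hpv, if_neg hj]

/-- Every vector is a combination of stabilizer states. -/
theorem exists_decomp {d : ℕ} (T : Bits d → ℂ) :
    ∃ r, ∃ (a : Fin r → ℂ) (S : Fin r → (Bits d → ℂ)), (∀ i, IsStab (S i)) ∧
      T = ∑ i, a i • S i := by
  classical
  let e := Fintype.equivFin (Bits d)
  refine ⟨Fintype.card (Bits d), fun i => T (e.symm i), fun i => Pi.single (e.symm i) 1,
    fun i => basis_stab _, ?_⟩
  rw [Equiv.sum_comp e.symm (fun x => T x • (Pi.single x (1 : ℂ) : Bits d → ℂ))]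
  funext y
  rw [Finset.sum_apply, Finset.sum_eq_single y]
  · show T y = T y * (Pi.single y (1 : ℂ) : Bits d → ℂ) y
    rw [Pi.single_eq_same, mul_one]
  · intro x _ hx
    show T x * (Pi.single x (1 : ℂ) : Bits d → ℂ) y = 0
    rw [Pi.single_eq_of_ne (Ne.symm hx), mul_zero]
  · intro h
    exact absurd (Finset.mem_univ _) h

end Pool.Agent.Q317.SR
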